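import Mathlib

/-! Integrals of zonal functions over the unit spheres of hyperplanes. -/

set_option autoImplicit false

namespace Pool.Agent.J6H70.IB

open MeasureTheory Set Metric
open scoped ENNReal NNReal RealInnerProductSpace Pointwise

section Iso

variable {V W : Type*} [NormedAddCommGroup V] [InnerProductSpace ℝ V] [FiniteDimensional ℝ V]
  [MeasurableSpace V] [BorelSpace V]
  [NormedAddCommGroup W] [InnerProductSpace ℝ W] [FiniteDimensional ℝ W]
  [MeasurableSpace W] [BorelSpace W]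

/-- the homeomorphism of unit spheres given by a linear isometry -/
def sphHomeo (ψ : V ≃ₗᵢ[ℝ] W) : sphere (0 : V) 1 ≃ₜ sphere (0 : W) 1 where
  toFun v := ⟨ψ v, by simp⟩
  invFun w := ⟨ψ.symm w, by simp⟩
  left_inv v := by ext; simp
  right_inv w := by ext; simp
  continuous_toFun := by fun_prop
  continuous_invFun := by fun_prop

theorem toSphere_map (ψ : V ≃ₗᵢ[ℝ] W) :
    ((volume : Measure V).toSphere).map (sphHomeo ψ) = (volume : Measure W).toSphere := by
  ext s hs
  rw [Measure.map_apply (sphHomeo ψ).continuous.measurable hs, Measure.toSphere_apply' _ hs,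
    Measure.toSphere_apply' _ ((sphHomeo ψ).continuous.measurable hs),
    ψ.toLinearEquiv.finrank_eq]
  congr 1
  have h : (Ioo (0 : ℝ) 1 • ((↑) '' (sphHomeo ψ ⁻¹' s) : Set V)) =
      ψ ⁻¹' (Ioo (0 : ℝ) 1 • ((↑) '' s : Set W)) := by
    ext x
    simp only [Set.mem_smul, mem_preimage, mem_image]
    constructor
    · rintro ⟨r, hr, y, ⟨v, hv, rfl⟩, rfl⟩
      exact ⟨r, hr, ψ v, ⟨_, hv, rfl⟩, by simp⟩
    · rintro ⟨r, hr, y, ⟨w, hw, rfl⟩, h⟩
      refine ⟨r, hr, ψ.symm w, ⟨(sphHomeo ψ).symm w, by simpa using hw, rfl⟩, ?_⟩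
      apply ψ.injective
      simpa using h
  rw [h]
  exact ψ.measurePreserving.measure_preimage_emb ψ.toHomeomorph.measurableEmbedding _

theorem integral_sph (ψ : V ≃ₗᵢ[ℝ] W) (F : W → ℝ) :
    ∫ v : sphere (0 : V) 1, F (ψ v) ∂(volume : Measure V).toSphere =
      ∫ w : sphere (0 : W) 1, F w ∂(volume : Measure W).toSphere := by
  rw [← toSphere_map ψ, (sphHomeo ψ).measurableEmbedding.integral_map]
  rfl

theorem zonal (ψ₀ : V ≃ₗᵢ[ℝ] W) (p : V) (a : W) (σ : ℝ) (hp : ‖p‖ = σ) (ha : ‖a‖ = 1)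
    (φ : ℝ → ℝ) :
    ∫ v : sphere (0 : V) 1, φ ⟪(v : V), p⟫ ∂(volume : Measure V).toSphere =
      ∫ w : sphere (0 : W) 1, φ (σ * ⟪(w : W), a⟫) ∂(volume : Measure W).toSphere := by
  have hσ : 0 ≤ σ := hp ▸ norm_nonneg p
  have hn : ‖ψ₀ p‖ = ‖σ • a‖ := by
    rw [ψ₀.norm_map, norm_smul, ha, hp, Real.norm_of_nonneg hσ, mul_one]
  set ψ : V ≃ₗᵢ[ℝ] W := ψ₀.trans ((ℝ ∙ (ψ₀ p - σ • a))ᗮ.reflection) with hψ
  have hψp : ψ p = σ • a := by
    rw [hψ, LinearIsometryEquiv.trans_apply]
    exact Submodule.reflection_sub hn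
  have h1 : ∀ v : sphere (0 : V) 1, φ ⟪(v : V), p⟫ = (fun w : W => φ (σ * ⟪w, a⟫)) (ψ v) := by
    intro v
    have h2 : ⟪(v : V), p⟫ = ⟪ψ v, ψ p⟫ := (ψ.inner_map_map _ _).symm
    rw [h2, hψp, inner_smul_right]
  simp_rw [h1]
  exact integral_sph ψ (fun w : W => φ (σ * ⟪w, a⟫))

end Iso

section Law

variable (j : ℕ)

/-- the model space of dimension `j + 2` -/
abbrev Wj := EuclideanSpace ℝ (Fin (j + 2))

/-- the first unit vector -/
noncomputable def av : Wj j := EuclideanSpace.single 0 1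

theorem av_norm : ‖av j‖ = 1 := by simp [av]

/-- the area of the unit sphere -/
noncomputable def area : ℝ := (volume : Measure (Wj j)).toSphere.real univ

theorem area_pos : 0 < area j := by
  unfold area
  rw [Measure.toSphere_real_apply_univ]
  apply mul_pos
  · simp
    positivity
  · exact ENNReal.toReal_pos (measure_ball_pos _ _ one_pos).ne' measure_ball_lt_top.ne

/-- the law of the first coordinate of a random point of the unit sphere -/
noncomputable def law : Measure ℝ :=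
  (ENNReal.ofReal (area j))⁻¹ • ((volume : Measure (Wj j)).toSphere).map
    (fun w : sphere (0 : Wj j) 1 => ⟪(w : Wj j), av j⟫)

theorem meas_coord : Measurable (fun w : sphere (0 : Wj j) 1 => ⟪(w : Wj j), av j⟫) := by
  apply Continuous.measurable
  fun_prop

theorem univ_eq : (volume : Measure (Wj j)).toSphere univ = ENNReal.ofReal (area j) := by
  unfold area
  rw [Measure.real, ENNReal.ofReal_toReal]
  exact measure_ne_top _ _

instance : IsProbabilityMeasure (law j) := by
  constructor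
  unfold law
  rw [Measure.smul_apply, Measure.map_apply (meas_coord j) MeasurableSet.univ, preimage_univ,
    univ_eq, smul_eq_mul]
  apply ENNReal.inv_mul_cancel
  · simpa using area_pos j
  · exact ENNReal.ofReal_ne_top

theorem integral_law (φ : ℝ → ℝ) (hφ : Measurable φ) :
    area j * ∫ s, φ s ∂(law j) =
      ∫ w : sphere (0 : Wj j) 1, φ ⟪(w : Wj j), av j⟫ ∂(volume : Measure (Wj j)).toSphere := by
  unfold law
  rw [integral_smul_measure, integral_map (meas_coord j).aemeasurable hφ.aestronglyMeasurable,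
    ENNReal.toReal_inv, ENNReal.toReal_ofReal (area_pos j).le, smul_eq_mul, ← mul_assoc,
    mul_inv_cancel₀ (area_pos j).ne', one_mul]

theorem law_le : ∀ᵐ s ∂(law j), |s| ≤ 1 := by
  unfold law
  apply Measure.ae_smul_measure
  rw [ae_map_iff (meas_coord j).aemeasurable (measurableSet_le (by fun_prop) (by fun_prop))]
  refine Filter.Eventually.of_forall fun w => ?_
  have h := abs_real_inner_le_norm (w : Wj j) (av j)
  rw [av_norm, mul_one] at h
  simpa using h

theorem second_unit (b : Wj j) (hb : ‖b‖ = 1) :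
    ∫ w : sphere (0 : Wj j) 1, ⟪(w : Wj j), b⟫ ^ 2 ∂(volume : Measure (Wj j)).toSphere =
      area j * ∫ s, s ^ 2 ∂(law j) := by
  have h := zonal (LinearIsometryEquiv.refl ℝ (Wj j)) b (av j) 1 hb (av_norm j) (fun x => x ^ 2)
  simp only [one_mul] at h
  rw [h, integral_law j (fun s => s ^ 2) (by fun_prop)]

theorem second : ∫ s, s ^ 2 ∂(law j) = 1 / ((j : ℝ) + 2) := by
  have h1 : ∀ w : sphere (0 : Wj j) 1,
      ∑ l : Fin (j + 2), ⟪(w : Wj j), EuclideanSpace.single l (1 : ℝ)⟫ ^ 2 = 1 := by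
    intro w
    have h2 : ‖(w : Wj j)‖ = 1 := by simp
    have h3 := EuclideanSpace.norm_sq_eq (w : Wj j)
    rw [h2] at h3
    simp only [EuclideanSpace.inner_single_right, conj_trivial, one_mul]
    rw [one_pow] at h3
    refine Eq.trans ?_ h3.symm
    simp
  have h4 : ∑ l : Fin (j + 2), ∫ w : sphere (0 : Wj j) 1,
      ⟪(w : Wj j), EuclideanSpace.single l (1 : ℝ)⟫ ^ 2 ∂(volume : Measure (Wj j)).toSphere =
        area j := by
    rw [← integral_finsetSum]
    · simp_rw [h1]
      simp [area, Measure.real]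
    · intro l _
      apply Continuous.integrable_of_hasCompactSupport
      · fun_prop
      · exact HasCompactSupport.of_compactSpace _
  have h5 : ∀ l : Fin (j + 2), ∫ w : sphere (0 : Wj j) 1,
      ⟪(w : Wj j), EuclideanSpace.single l (1 : ℝ)⟫ ^ 2 ∂(volume : Measure (Wj j)).toSphere =
        area j * ∫ s, s ^ 2 ∂(law j) := fun l => second_unit j _ (by simp)
  simp_rw [h5] at h4
  rw [Finset.sum_const, Finset.card_univ, Fintype.card_fin, nsmul_eq_mul] at h4
  have ha := area_pos j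
  push_cast at h4
  field_simp
  have h6 : area j * (((j : ℝ) + 2) * ∫ s, s ^ 2 ∂(law j) - 1) = 0 := by linarith
  rcases mul_eq_zero.1 h6 with h | h
  · exact absurd h ha.ne'
  · linarith

theorem law_symm (φ : ℝ → ℝ) (hφ : Measurable φ) :
    ∫ s, φ (-s) ∂(law j) = ∫ s, φ s ∂(law j) := by
  have h1 := integral_law j φ hφ
  have h2 := integral_law j (fun s => φ (-s)) (hφ.comp measurable_neg)
  have h3 := integral_sph (LinearIsometryEquiv.neg ℝ : Wj j ≃ₗᵢ[ℝ] Wj j)
    (fun w => φ ⟪w, av j⟫)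
  simp only [LinearIsometryEquiv.coe_neg, inner_neg_left] at h3
  rw [← h1] at h3
  rw [h3] at h2
  exact mul_left_cancel₀ (area_pos j).ne' h2

theorem law_lt : ∀ᵐ s ∂(law j), |s| < 1 := by
  unfold law
  apply Measure.ae_smul_measure
  rw [ae_map_iff (meas_coord j).aemeasurable (measurableSet_lt (by fun_prop) (by fun_prop))]
  have hS : ∀ w : sphere (0 : Wj j) 1, ¬ |⟪(w : Wj j), av j⟫| < 1 →
      (w : Wj j) ∈ (ℝ ∙ av j) := by
    intro w hw
    have h := abs_real_inner_le_norm (w : Wj j) (av j)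
    have hwn : ‖(w : Wj j)‖ = 1 := by simp
    have h1 : |⟪(w : Wj j), av j⟫| = ‖(w : Wj j)‖ * ‖av j‖ := by
      rw [av_norm, hwn] at h ⊢
      push Not at hw
      linarith
    have h0 : (av j) ≠ 0 := by
      intro h0
      have := av_norm j
      rw [h0, norm_zero] at this
      exact zero_ne_one this
    have h0' : (w : Wj j) ≠ 0 := by
      intro h0
      rw [h0, norm_zero] at hwn
      exact zero_ne_one hwn
    have h2 : ‖⟪(w : Wj j), av j⟫‖ = ‖(w : Wj j)‖ * ‖av j‖ := h1
    obtain ⟨r, hr, h3⟩ := (norm_inner_eq_norm_iff h0' h0).1 h2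
    rw [Submodule.mem_span_singleton]
    exact ⟨r⁻¹, by rw [h3, smul_smul, inv_mul_cancel₀ hr, one_smul]⟩
  have hm : (volume : Measure (Wj j)) (ℝ ∙ av j : Submodule ℝ (Wj j)) = 0 := by
    apply Measure.addHaar_submodule
    intro h
    have h1 := congrArg (fun S : Submodule ℝ (Wj j) => Module.finrank ℝ S) h
    simp only [finrank_top, finrank_euclideanSpace, Fintype.card_fin] at h1
    have h2 := finrank_span_singleton (K := ℝ) (v := av j) (by
      intro h0
      have := av_norm j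
      rw [h0, norm_zero] at this
      exact zero_ne_one this)
    omega
  rw [ae_iff]
  set s : Set (sphere (0 : Wj j) 1) := {w | ¬ |⟪(w : Wj j), av j⟫| < 1} with hs
  have hsm : MeasurableSet s := by
    apply MeasurableSet.compl
    exact measurableSet_lt (continuous_abs.measurable.comp (meas_coord j)) measurable_const
  rw [Measure.toSphere_apply' _ hsm]
  have h5 : (volume : Measure (Wj j)) (Ioo (0 : ℝ) 1 • ((↑) '' s : Set (Wj j))) = 0 := by
    apply measure_mono_null _ hm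
    intro x hx
    obtain ⟨r, hr, y, ⟨w, hw, rfl⟩, rfl⟩ := Set.mem_smul.1 hx
    exact Submodule.smul_mem _ _ (hS w hw)
  rw [h5, mul_zero]

end Law

section Hyper

variable {j : ℕ}

/-- the model of the space, of dimension `j + 3` -/
abbrev Ej (j : ℕ) := EuclideanSpace ℝ (Fin (j + 3))

theorem hyper_integral (u e : Ej j) (hu : ‖u‖ = 1) (he : ‖e‖ = 1) (φ : ℝ → ℝ)
    (hφ : Measurable φ) :
    ∫ v : sphere (0 : (Submodule.span ℝ {u})ᗮ) 1,
      φ ⟪((v : (Submodule.span ℝ {u})ᗮ) : Ej j), e⟫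
        ∂(volume : Measure (Submodule.span ℝ {u})ᗮ).toSphere =
      area j * ∫ s, φ (√(1 - ⟪u, e⟫ ^ 2) * s) ∂(law j) := by
  have hu0 : u ≠ 0 := by
    intro h
    rw [h, norm_zero] at hu
    exact zero_ne_one hu
  have hfr : Module.finrank ℝ (Submodule.span ℝ {u})ᗮ = j + 2 := by
    have hfact : Fact (Module.finrank ℝ (Ej j) = (j + 2) + 1) := ⟨by simp⟩
    exact Submodule.finrank_orthogonal_span_singleton hu0
  have hcard : Module.finrank ℝ (Submodule.span ℝ {u})ᗮ = Module.finrank ℝ (Wj j) := by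
    rw [hfr]; simp
  let ψ₀ : (Submodule.span ℝ {u})ᗮ ≃ₗᵢ[ℝ] Wj j :=
    ((stdOrthonormalBasis ℝ (Submodule.span ℝ {u})ᗮ).reindex (finCongr hfr)).repr
  have hpm : e - ⟪u, e⟫ • u ∈ (Submodule.span ℝ {u})ᗮ := by
    rw [Submodule.mem_orthogonal_singleton_iff_inner_right, inner_sub_right, inner_smul_right,
      real_inner_self_eq_norm_sq, hu]
    ring
  set p : (Submodule.span ℝ {u})ᗮ := ⟨e - ⟪u, e⟫ • u, hpm⟩ with hp
  have hpn : ‖p‖ = √(1 - ⟪u, e⟫ ^ 2) := by
    have h2 : ‖p‖ ^ 2 = 1 - ⟪u, e⟫ ^ 2 := by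
      have h3 : ‖p‖ = ‖e - ⟪u, e⟫ • u‖ := rfl
      rw [h3, norm_sub_sq_real, inner_smul_right, norm_smul, hu, he, real_inner_comm u e, mul_one,
        Real.norm_eq_abs, sq_abs]
      ring
    rw [← h2, Real.sqrt_sq (norm_nonneg _)]
  have hin : ∀ v : sphere (0 : (Submodule.span ℝ {u})ᗮ) 1,
      ⟪((v : (Submodule.span ℝ {u})ᗮ) : Ej j), e⟫ = ⟪(v : (Submodule.span ℝ {u})ᗮ), p⟫ := by
    intro v
    have h1 : ⟪((v : (Submodule.span ℝ {u})ᗮ) : Ej j), u⟫ = 0 :=
      Submodule.mem_orthogonal_singleton_iff_inner_left.1 (v : (Submodule.span ℝ {u})ᗮ).2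
    rw [Submodule.coe_inner, hp]
    simp only
    rw [inner_sub_right, inner_smul_right, h1]
    ring
  simp_rw [hin]
  rw [zonal ψ₀ p (av j) _ hpn (av_norm j) φ, integral_law j (fun s => φ (√(1 - ⟪u, e⟫ ^ 2) * s))
    (by fun_prop)]

end Hyper

end Pool.Agent.J6H70.IB
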