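import Pool.Agent.J6H70.IB.Const
import Pool.Agent.J6H70.IB.Sph

/-! The body. -/

set_option autoImplicit false

namespace Pool.Agent.J6H70.IB

open MeasureTheory Set Filter Topology Metric
open scoped RealInnerProductSpace

section Defs

variable {E : Type*} [NormedAddCommGroup E] [InnerProductSpace ℝ E]

/-- The radial function `ρ_L(u) = sup {c ≥ 0 : c u ∈ L}`. -/
noncomputable def radial (L : Set E) (u : E) : ℝ := sSup {c : ℝ | 0 ≤ c ∧ c • u ∈ L}

/-- star body -/
structure IsStarBody (L : Set E) : Prop where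
  compact : IsCompact L
  zero_mem : (0 : E) ∈ L
  star : StarConvex ℝ 0 L
  cont : ContinuousOn (radial L) (sphere (0 : E) 1)

/-- The hyperplane `u^⊥`. -/
noncomputable def hyperplane (u : E) : Submodule ℝ E := (Submodule.span ℝ {u})ᗮ

variable [FiniteDimensional ℝ E] [MeasurableSpace E] [BorelSpace E]

/-- The spherical Lebesgue measure on the unit sphere of the hyperplane `u^⊥`. -/
noncomputable def sphereMeasure (u : E) : Measure (sphere (0 : hyperplane u) 1) :=
  (volume : Measure (hyperplane u)).toSphere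

/-- The radial function of the intersection body of order `i`. -/
noncomputable def orderRadial (i : ℝ) (L : Set E) (u : E) : ℝ :=
  1 / ((Module.finrank ℝ E : ℝ) - 1) *
    ∫ v, (radial L ((v : hyperplane u) : E)) ^ i ∂(sphereMeasure u)

/-- The intersection body of order `i`. -/
def intersectionBody (i : ℝ) (L : Set E) : Set E :=
  {x | ∃ u ∈ sphere (0 : E) 1, ∃ c : ℝ, 0 ≤ c ∧ c ≤ orderRadial i L u ∧ x = c • u}

end Defs

section Body

variable {j : ℕ} {κ Φ a c : ℝ}

/-- the body with profile `F`, translated by `c e` -/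
def LL (F : ℝ → ℝ) (c : ℝ) (e : Ej j) : Set (Ej j) :=
  {x | ‖x - c • e‖ ≤ F (⟪x - c • e, e⟫ / ‖x - c • e‖)}

theorem inner_abs (u e : Ej j) (hu : ‖u‖ = 1) (he : ‖e‖ = 1) : |⟪u, e⟫| ≤ 1 := by
  have := abs_real_inner_le_norm u e
  rwa [hu, he, mul_one] at this

theorem norm_eq_Nn (v e : Ej j) (hv : ‖v‖ = 1) (he : ‖e‖ = 1) (c t : ℝ) :
    ‖t • v - c • e‖ = Nn c ⟪v, e⟫ t := by
  have h : ‖t • v - c • e‖ ^ 2 = t ^ 2 - 2 * t * c * ⟪v, e⟫ + c ^ 2 := by
    rw [norm_sub_sq_real, norm_smul, norm_smul, hv, he, mul_one, mul_one, Real.norm_eq_abs,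
      Real.norm_eq_abs, sq_abs, sq_abs, inner_smul_left, inner_smul_right]
    simp
    ring
  unfold Nn
  rw [← h, Real.sqrt_sq (norm_nonneg _)]

theorem mem_LL_iff (F : ℝ → ℝ) (v e : Ej j) (hv : ‖v‖ = 1) (he : ‖e‖ = 1) (c t : ℝ) :
    t • v ∈ LL F c e ↔ Gf F c ⟪v, e⟫ t ≤ 0 := by
  have h1 : ⟪t • v - c • e, e⟫ = t * ⟪v, e⟫ - c := by
    rw [inner_sub_left, inner_smul_left, inner_smul_left, real_inner_self_eq_norm_sq, he]
    simp
  unfold LL Gf Yy
  rw [mem_ofPred_eq, h1, norm_eq_Nn v e hv he, sub_nonpos]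

theorem mem_LL_root (hC : Cst κ Φ a c) {F : ℝ → ℝ} (hF : Good κ Φ a F) (v e : Ej j)
    (hv : ‖v‖ = 1) (he : ‖e‖ = 1) (t : ℝ) (ht : 0 ≤ t) :
    t • v ∈ LL F c e ↔ t ≤ root F c ⟪v, e⟫ := by
  rw [mem_LL_iff F v e hv he, root_iff hC hF _ _ (inner_abs v e hv he) ht]

theorem radial_LL (hC : Cst κ Φ a c) {F : ℝ → ℝ} (hF : Good κ Φ a F) (v e : Ej j)
    (hv : ‖v‖ = 1) (he : ‖e‖ = 1) : radial (LL F c e) v = gE F c ⟪v, e⟫ := by
  have h1 : {t : ℝ | 0 ≤ t ∧ t • v ∈ LL F c e} = Icc 0 (root F c ⟪v, e⟫) := by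
    ext t
    constructor
    · rintro ⟨h1, h2⟩
      exact ⟨h1, (mem_LL_root hC hF v e hv he t h1).1 h2⟩
    · rintro ⟨h1, h2⟩
      exact ⟨h1, (mem_LL_root hC hF v e hv he t h1).2 h2⟩
  have h2 := (root_spec hC hF _ (inner_abs v e hv he)).1.1
  unfold radial
  rw [h1, csSup_Icc (by linarith), gE_eq (inner_abs v e hv he)]

theorem exists_unit (x : Ej j) : ∃ v : Ej j, ‖v‖ = 1 ∧ x = ‖x‖ • v := by
  rcases eq_or_ne x 0 with h | h
  · exact ⟨EuclideanSpace.single 0 1, by simp, by simp [h]⟩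
  · refine ⟨‖x‖⁻¹ • x, ?_, ?_⟩
    · rw [norm_smul, norm_inv, norm_norm, inv_mul_cancel₀ (norm_ne_zero_iff.2 h)]
    · rw [smul_smul, mul_inv_cancel₀ (norm_ne_zero_iff.2 h), one_smul]

theorem F_ge (hC : Cst κ Φ a c) {F : ℝ → ℝ} (hF : Good κ Φ a F) (x : ℝ) (hx : |x| ≤ 1) :
    9 / 10 ≤ F x ∧ F x ≤ 11 / 10 := by
  have h := abs_le.1 (hF.near hC x hx)
  have := hC.ha
  constructor <;> linarith [h.1, h.2]

theorem ratio_abs (y e : Ej j) (he : ‖e‖ = 1) : |⟪y, e⟫ / ‖y‖| ≤ 1 := by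
  rw [abs_div, abs_norm]
  apply div_le_one_of_le₀ _ (norm_nonneg _)
  have := abs_real_inner_le_norm y e
  rwa [he, mul_one] at this

theorem ratio_abs' (y e : Ej j) (he : ‖e‖ = 1) : |⟪y, e⟫ / max ‖y‖ (1 / 2)| ≤ 1 := by
  have h0 : 0 < max ‖y‖ (1 / 2) := lt_max_of_lt_right (by norm_num)
  rw [abs_div, abs_of_pos h0]
  apply div_le_one_of_le₀ _ h0.le
  have := abs_real_inner_le_norm y e
  rw [he, mul_one] at this
  exact this.trans (le_max_left _ _)

theorem LL_eq (hC : Cst κ Φ a c) {F : ℝ → ℝ} (hF : Good κ Φ a F) (e : Ej j) (he : ‖e‖ = 1) :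
    LL F c e = {x | ‖x - c • e‖ ≤ F (⟪x - c • e, e⟫ / max ‖x - c • e‖ (1 / 2))} := by
  ext x
  simp only [LL, mem_ofPred_eq]
  rcases le_total (1 / 2) ‖x - c • e‖ with h | h
  · rw [max_eq_left h]
  · have h1 := (F_ge hC hF _ (ratio_abs (x - c • e) e he)).1
    have h2 := (F_ge hC hF _ (ratio_abs' (x - c • e) e he)).1
    constructor <;> intro _ <;> linarith

theorem LL_star (hC : Cst κ Φ a c) {F : ℝ → ℝ} (hF : Good κ Φ a F) (e : Ej j)
    (he : ‖e‖ = 1) : IsStarBody (LL F c e) := by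
  have hmem : ∀ x ∈ LL F c e, ‖x - c • e‖ ≤ 11 / 10 := fun x hx =>
    (show ‖x - c • e‖ ≤ _ from hx).trans (F_ge hC hF _ (ratio_abs _ e he)).2
  constructor
  · apply Metric.isCompact_of_isClosed_isBounded
    · rw [LL_eq hC hF e he]
      have hpos : ∀ x : Ej j, max ‖x - c • e‖ (1 / 2) ≠ 0 := fun x =>
        (lt_max_of_lt_right (by norm_num) : (0 : ℝ) < max ‖x - c • e‖ (1 / 2)).ne'
      apply isClosed_le (by fun_prop)
      refine hF.cont.comp (Continuous.div (by fun_prop) (by fun_prop) hpos)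
    · refine (isBounded_closedBall (x := c • e) (r := 11 / 10)).subset fun x hx => ?_
      rw [mem_closedBall, dist_eq_norm]
      exact hmem x hx
  · have := (mem_LL_root hC hF (e : Ej j) e he he 0 le_rfl).2
      (by linarith [(root_spec hC hF _ (inner_abs e e he he)).1.1])
    simpa using this
  · intro x hx s t hs ht hst
    obtain ⟨v, hv, hxv⟩ := exists_unit x
    rw [smul_zero, zero_add, hxv, smul_smul]
    rw [hxv] at hx
    have h1 := (mem_LL_root hC hF v e hv he _ (norm_nonneg x)).1 hx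
    refine (mem_LL_root hC hF v e hv he _ (by positivity)).2 ?_
    have : t ≤ 1 := by linarith
    have := mul_le_mul_of_nonneg_right this (norm_nonneg x)
    linarith
  · have h1 : ∀ v ∈ sphere (0 : Ej j) 1, radial (LL F c e) v = gE F c ⟪v, e⟫ := fun v hv =>
      radial_LL hC hF v e (by simpa using hv) he
    refine ContinuousOn.congr ?_ h1
    exact ((gE_cont hC hF).comp (by fun_prop)).continuousOn

theorem orderRadial_LL (hC : Cst κ Φ a c) {F : ℝ → ℝ} (hF : Good κ Φ a F) (u e : Ej j)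
    (hu : ‖u‖ = 1) (he : ‖e‖ = 1) (i : ℝ) :
    orderRadial i (LL F c e) u =
      area j / (j + 2) * AA (law j) i (gE F c) √(1 - ⟪u, e⟫ ^ 2) := by
  unfold orderRadial sphereMeasure hyperplane
  have h1 : ∀ v : sphere (0 : (Submodule.span ℝ {u})ᗮ) 1,
      (radial (LL F c e) ((v : (Submodule.span ℝ {u})ᗮ) : Ej j)) ^ i =
        (fun s => (gE F c s) ^ i) ⟪((v : (Submodule.span ℝ {u})ᗮ) : Ej j), e⟫ := by
    intro v
    have hv : ‖((v : (Submodule.span ℝ {u})ᗮ) : Ej j)‖ = 1 := by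
      have : ‖(v : (Submodule.span ℝ {u})ᗮ)‖ = 1 := by simp
      exact this
    simp only
    rw [radial_LL hC hF _ e hv he]
  simp_rw [h1]
  rw [hyper_integral u e hu he (fun s => (gE F c s) ^ i)
    ((gE_cont hC hF).measurable.pow_const i), finrank_euclideanSpace_fin]
  unfold AA
  have h2 : ∀ s : ℝ, √(1 - ⟪u, e⟫ ^ 2) * s = s * √(1 - ⟪u, e⟫ ^ 2) := fun s => mul_comm _ _
  simp_rw [h2]
  push_cast
  have h3 : ((j : ℝ) + 3 - 1) = j + 2 := by ring
  rw [h3]
  ring

/-- the intersection body of a fixed point -/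
theorem body_eq (i ε q : ℝ) (hH : Hyp (law j) i κ Φ a c ε q) {F : ℝ → ℝ}
    (hF : Good κ Φ a F) (hfix : ∀ x, |x| ≤ 1 → TF (law j) i c F x = F x) (e : Ej j)
    (he : ‖e‖ = 1) : ∃ r : ℝ, 0 < r ∧
      intersectionBody i (LL F c e) = (fun z => (-(r * c)) • e + r • z) '' LL F c e := by
  have hg := gE0_pos hH hF
  have hr : 0 < area j / (j + 2) * (gE F c 0) ^ i := by
    have := area_pos j
    positivity
  have hC := hH.cst
  refine ⟨area j / (j + 2) * (gE F c 0) ^ i, hr, ?_⟩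
  set r := area j / (j + 2) * (gE F c 0) ^ i with hrd
  have hord : ∀ u : Ej j, ‖u‖ = 1 → orderRadial i (LL F c e) u = r * F ⟪u, e⟫ := by
    intro u hu
    rw [orderRadial_LL hC hF u e hu he, ← hfix _ (inner_abs u e hu he)]
    unfold TF
    rw [hrd]
    field_simp
  ext x
  have h1 : x ∈ intersectionBody i (LL F c e) ↔ ‖x‖ ≤ r * F (⟪x, e⟫ / ‖x‖) := by
    constructor
    · rintro ⟨u, hu, t, ht0, ht, rfl⟩
      have hu' : ‖u‖ = 1 := by simpa using hu
      rcases eq_or_lt_of_le ht0 with h | h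
      · rw [← h, zero_smul, norm_zero]
        have := (F_ge hC hF (⟪(0 : Ej j), e⟫ / 0) (by simp)).1
        exact mul_nonneg hr.le (by linarith)
      · rw [norm_smul, hu', Real.norm_of_nonneg ht0, mul_one, inner_smul_left]
        simp only [conj_trivial]
        rw [mul_div_cancel_left₀ _ h.ne', ← hord u hu']
        exact ht
    · intro hx
      obtain ⟨v, hv, hxv⟩ := exists_unit x
      rcases eq_or_ne x 0 with h | h
      · refine ⟨v, by simpa using hv, 0, le_rfl, ?_, by simp [h]⟩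
        rw [hord v hv]
        have := (F_ge hC hF _ (inner_abs v e hv he)).1
        exact mul_nonneg hr.le (by linarith)
      · refine ⟨v, by simpa using hv, ‖x‖, norm_nonneg _, ?_, hxv⟩
        rw [hord v hv]
        have h2 : ⟪x, e⟫ / ‖x‖ = ⟪v, e⟫ := by
          conv_lhs => rw [hxv, inner_smul_left]
          simp only [conj_trivial, norm_smul, norm_norm, hv, mul_one]
          exact mul_div_cancel_left₀ _ (norm_ne_zero_iff.2 h)
        rwa [h2] at hx
  rw [h1]
  constructor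
  · intro hx
    refine ⟨c • e + r⁻¹ • x, ?_, ?_⟩
    · have h2 : c • e + r⁻¹ • x - c • e = r⁻¹ • x := by abel
      unfold LL
      rw [mem_ofPred_eq, h2, norm_smul, inner_smul_left, Real.norm_of_nonneg (by positivity)]
      simp only [conj_trivial]
      rw [mul_div_mul_left _ _ (inv_ne_zero hr.ne'), inv_mul_le_iff₀ hr]
      exact hx
    · simp only
      rw [smul_add, smul_smul, smul_smul, mul_inv_cancel₀ hr.ne', one_smul, neg_smul,
        neg_add_cancel_left]
  · rintro ⟨z, hz, rfl⟩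
    have h2 : (-(r * c)) • e + r • z = r • (z - c • e) := by
      rw [smul_sub, smul_smul, neg_smul]
      abel
    simp only
    rw [h2, norm_smul, inner_smul_left, Real.norm_of_nonneg hr.le]
    simp only [conj_trivial]
    rw [mul_div_mul_left _ _ hr.ne']
    exact mul_le_mul_of_nonneg_left hz hr.le

end Body

end Pool.Agent.J6H70.IB
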