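import Pool.Agent.J6H70.IB.Fix

/-! The choice of the constants. -/

set_option autoImplicit false

namespace Pool.Agent.J6H70.IB

open MeasureTheory Set Filter Topology

theorem exists_eta (i ε : ℝ) (hi : 0 < i) (hε : 0 < ε) : ∃ η : ℝ, 0 < η ∧
    (∀ z w : ℝ, |z - 1| ≤ η → |w - 1| ≤ η → |z ^ i - w ^ i| ≤ i * (1 + ε) * |z - w|) ∧
    ∀ z : ℝ, |z - 1| ≤ η → 1 ≤ (1 + ε) * z ^ i := by
  have h1 : HasStrictDerivAt (fun x : ℝ => x ^ i) (i * (1 : ℝ) ^ (i - 1)) 1 :=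
    Real.hasStrictDerivAt_rpow_const_of_ne one_ne_zero i
  rw [Real.one_rpow, mul_one] at h1
  have h2 := (h1.isLittleO.def (show 0 < i * ε by positivity))
  have h3 : ∀ᶠ z : ℝ in 𝓝 1, 1 < (1 + ε) * z ^ i := by
    have h4 : Tendsto (fun z : ℝ => (1 + ε) * z ^ i) (𝓝 1) (𝓝 ((1 + ε) * 1 ^ i)) :=
      (h1.hasDerivAt.continuousAt.tendsto).const_mul _
    rw [Real.one_rpow, mul_one] at h4
    exact h4.eventually (lt_mem_nhds (by linarith))
  obtain ⟨η₁, hη₁, h5⟩ := Metric.eventually_nhds_iff.1 h2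
  obtain ⟨η₂, hη₂, h6⟩ := Metric.eventually_nhds_iff.1 h3
  refine ⟨min η₁ η₂ / 2, by positivity, fun z w hz hw => ?_, fun z hz => ?_⟩
  · have h7 : dist (z, w) ((1 : ℝ), (1 : ℝ)) < η₁ := by
      rw [Prod.dist_eq, max_lt_iff, Real.dist_eq, Real.dist_eq]
      have : min η₁ η₂ / 2 < η₁ := by
        have := min_le_left η₁ η₂
        have : 0 < min η₁ η₂ := lt_min hη₁ hη₂
        linarith
      exact ⟨hz.trans_lt this, hw.trans_lt this⟩
    have h8 := h5 h7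
    simp only [ContinuousLinearMap.smulRight_apply, ContinuousLinearMap.toSpanSingleton_apply,
      ContinuousLinearMap.one_apply, smul_eq_mul, Real.norm_eq_abs] at h8
    have h9 : z ^ i - w ^ i = (z ^ i - w ^ i - (z - w) * i) + (z - w) * i := by ring
    rw [h9]
    refine (abs_add_le _ _).trans ?_
    rw [abs_mul, abs_of_pos hi]
    linarith
  · have h7 : dist z 1 < η₂ := by
      rw [Real.dist_eq]
      have : min η₁ η₂ / 2 < η₂ := by
        have := min_le_right η₁ η₂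
        have : 0 < min η₁ η₂ := lt_min hη₁ hη₂
        linarith
      exact hz.trans_lt this
    exact (h6 h7).le

theorem exists_hyp (μ : Measure ℝ) [IsProbabilityMeasure μ] (h : ∀ᵐ s ∂μ, |s| < 1)
    (i : ℝ) (hi : 0 < i) (hv : i * ∫ s, s ^ 2 ∂μ < 1) :
    ∃ κ Φ a ε q c₀ : ℝ, 0 < c₀ ∧ ∀ c : ℝ, 0 ≤ c → c < c₀ → Hyp μ i κ Φ a c ε q := by
  have hv0 : 0 ≤ ∫ s, s ^ 2 ∂μ := integral_nonneg fun s => sq_nonneg s
  set v := ∫ s, s ^ 2 ∂μ with hvd
  set q := (1 + i * v) / 2 with hq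
  have hq0 : 0 < q := by positivity
  have hq1 : q < 1 := by rw [hq]; linarith
  have hqi : v < q / i := by
    rw [lt_div_iff₀ hi, hq]
    linarith
  obtain ⟨κ, hκ0, hκ1, hlin⟩ := linear_estimate μ h i q hi hq0 hqi
  set Φ := i / q with hΦ
  have hΦ0 : 0 < Φ := by positivity
  -- ε
  have hε : ∃ ε : ℝ, 0 < ε ∧ (1 + ε) ^ 2 * q < 1 := by
    have h1 : Tendsto (fun ε : ℝ => (1 + ε) ^ 2 * q) (𝓝[>] 0) (𝓝 ((1 + 0) ^ 2 * q)) := by
      have h2 : Continuous fun ε : ℝ => (1 + ε) ^ 2 * q := by fun_prop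
      exact (h2.tendsto 0).mono_left nhdsWithin_le_nhds
    have h3 := h1.eventually (gt_mem_nhds (show (1 + 0) ^ 2 * q < 1 by linarith))
    obtain ⟨ε, h4, h5⟩ := (h3.and self_mem_nhdsWithin).exists
    exact ⟨ε, h5, h4⟩
  obtain ⟨ε, hε0, hε1⟩ := hε
  obtain ⟨η, hη0, hpow, hlow⟩ := exists_eta i ε hi hε0
  set S := 5 * (2 + κ + κ * Φ) with hS
  have hS0 : 0 < S := by positivity
  set B := 1 + κ * (1 + Φ) with hB
  have hB0 : 0 < B := by positivity
  -- a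
  set a := min (min (1 / 10) (η / 2) / B) ((1 - (1 + ε) ^ 2 * q) / (2 * S)) with ha
  have hε2 : 0 < 1 - (1 + ε) ^ 2 * q := by linarith
  have ha0 : 0 < a := by positivity
  have haB : a * B ≤ min (1 / 10) (η / 2) := by
    rw [← le_div_iff₀ hB0]
    exact min_le_left _ _
  have haS : a * S ≤ (1 - (1 + ε) ^ 2 * q) / 2 := by
    have : a ≤ (1 - (1 + ε) ^ 2 * q) / (2 * S) := min_le_right _ _
    rw [le_div_iff₀ (by positivity)] at this
    linarith
  have hcont : ∀ᶠ c : ℝ in 𝓝 0,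
      (1 + ε) ^ 2 * (i * (2 * c / (κ * Φ)) + q * (a * (1 + c * (11 + 7 / κ + 5 * Φ)))) <
        a * (1 - 4 * c - a * S) := by
    have h1 : Continuous fun c : ℝ => a * (1 - 4 * c - a * S) -
        (1 + ε) ^ 2 * (i * (2 * c / (κ * Φ)) + q * (a * (1 + c * (11 + 7 / κ + 5 * Φ)))) := by
      fun_prop
    have h2 := h1.tendsto 0
    have h3 : 0 < a * (1 - 4 * 0 - a * S) -
        (1 + ε) ^ 2 * (i * (2 * 0 / (κ * Φ)) + q * (a * (1 + 0 * (11 + 7 / κ + 5 * Φ)))) := by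
      have e : a * (1 - 4 * 0 - a * S) -
        (1 + ε) ^ 2 * (i * (2 * 0 / (κ * Φ)) + q * (a * (1 + 0 * (11 + 7 / κ + 5 * Φ)))) =
          a * (1 - (1 + ε) ^ 2 * q - a * S) := by ring
      rw [e]
      apply mul_pos ha0
      linarith
    filter_upwards [h2.eventually (lt_mem_nhds h3)] with c hc
    linarith
  obtain ⟨c₁, hc₁, hfin⟩ := Metric.eventually_nhds_iff.1 hcont
  refine ⟨κ, Φ, a, ε, q, min c₁ (min (1 / 100) (η / 2)), by positivity, fun c hc0 hc => ?_⟩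
  have hc1 : c < c₁ := hc.trans_le (min_le_left _ _)
  have hc2 : c < 1 / 100 := hc.trans_le ((min_le_right _ _).trans (min_le_left _ _))
  have hc3 : c < η / 2 := hc.trans_le ((min_le_right _ _).trans (min_le_right _ _))
  have hη1 : a * B + c ≤ η := by
    have := haB.trans (min_le_right _ _)
    linarith
  have hf := hfin (show dist c 0 < c₁ by rwa [Real.dist_eq, sub_zero, abs_of_nonneg hc0])
  refine ⟨⟨hκ0, hΦ0, ha0, hc0, hc2.le, haB.trans (min_le_left _ _), ?_⟩, hi, hε0, hq0, h,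
    fun z w hz hw => hpow z w (hz.trans hη1) (hw.trans hη1), fun z hz => hlow z (hz.trans hη1),
    hlin, hf.le⟩
  -- positivity of the slope
  have h1 : 0 ≤ (1 + ε) ^ 2 * (i * (2 * c / (κ * Φ)) +
      q * (a * (1 + c * (11 + 7 / κ + 5 * Φ)))) := by positivity
  have h2 : 0 < a * (1 - 4 * c - a * S) := by linarith
  exact (mul_pos_iff_of_pos_left ha0).1 h2

end Pool.Agent.J6H70.IB
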