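import Pool.Agent.J6H70.IB.Body

/-! The body is not a ball; final existence theorem. -/

set_option autoImplicit false

namespace Pool.Agent.J6H70.IB

open MeasureTheory Set Filter Topology Metric
open scoped RealInnerProductSpace

variable {j : ℕ} {κ Φ a c : ℝ}

theorem F_even {F : ℝ → ℝ} (hF : Good κ Φ a F) (x : ℝ) (hx : |x| ≤ 1) : F (-x) = F x := by
  have h := hF.lip (-x) x (by rwa [abs_neg]) hx
  have h0 : DD κ Φ (-x) x = 0 := by simp [DD]
  rw [h0, mul_zero] at h
  exact sub_eq_zero.1 (abs_nonpos_iff.1 h)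

theorem symm_LL {F : ℝ → ℝ} (hF : Good κ Φ a F) (e : Ej j) (he : ‖e‖ = 1) (x : Ej j) :
    x ∈ LL F c e ↔ (2 * c) • e - x ∈ LL F c e := by
  have h1 : (2 * c) • e - x - c • e = -(x - c • e) := by
    rw [two_mul, add_smul]; abel
  unfold LL
  rw [mem_ofPred_eq, mem_ofPred_eq, h1, norm_neg, inner_neg_left, neg_div,
    F_even hF _ (ratio_abs _ e he)]

/-- on the profile `1` the mean of `g ^ i` over all latitudes exceeds `g(0) ^ i` -/
theorem not_const (i ε q : ℝ) (hc : 0 < c) (hH : Hyp (law j) i κ Φ a c ε q) {F : ℝ → ℝ}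
    (hF : Good κ Φ a F) (hfix : ∀ x, |x| ≤ 1 → TF (law j) i c F x = F x)
    (h1 : ∀ x, |x| ≤ 1 → F x = 1) : False := by
  have hC := hH.cst
  have hi0 := hH.i0
  -- the equation of the radial function
  have heq : ∀ τ, |τ| ≤ 1 → gE F c τ ^ 2 - 2 * gE F c τ * c * τ + c ^ 2 = 1 := by
    intro τ hτ
    have h2 := (root_spec hC hF τ hτ).2
    unfold Gf at h2
    rw [h1 _ (Yy_abs c τ _ hτ)] at h2
    rw [gE_eq hτ, ← Nn_sq c τ _ hτ]
    have : Nn c τ (root F c τ) = 1 := by linarith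
    rw [this]; norm_num
  have hpos : ∀ τ, 1 / 2 ≤ gE F c τ := fun τ => (gE_range hH hF τ).1
  have h0 := heq 0 (by simp)
  have hdiff : ∀ τ, |τ| ≤ 1 → gE F c τ - gE F c (-τ) = 2 * c * τ := by
    intro τ hτ
    have e1 := heq τ hτ
    have e2 := heq (-τ) (by rwa [abs_neg])
    have p1 := hpos τ
    have p2 := hpos (-τ)
    have e3 : (gE F c τ - gE F c (-τ) - 2 * c * τ) * (gE F c τ + gE F c (-τ)) = 0 := by
      nlinarith
    rcases mul_eq_zero.1 e3 with h | h
    · linarith
    · linarith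
  have hprod : ∀ τ, |τ| ≤ 1 → gE F c τ * gE F c (-τ) = gE F c 0 ^ 2 := by
    intro τ hτ
    have e1 := heq τ hτ
    have e2 := hdiff τ hτ
    have e3 : gE F c (-τ) = gE F c τ - 2 * c * τ := by linarith
    rw [e3]
    nlinarith
  -- the integral
  have hfix0 := hfix 0 (by simp)
  rw [h1 0 (by simp)] at hfix0
  unfold TF at hfix0
  rw [div_eq_one_iff_eq (gE0_pos hH hF).ne'] at hfix0
  unfold AA at hfix0
  simp only [ne_eq, OfNat.ofNat_ne_zero, not_false_eq_true, zero_pow, sub_zero, Real.sqrt_one,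
    mul_one] at hfix0
  have hint : Integrable (fun s => (gE F c s) ^ i) (law j) := by
    have := gE_pow_int hH hF 1
    simpa using this
  have hint' : Integrable (fun s => (gE F c (-s)) ^ i) (law j) := by
    have := gE_pow_int hH hF (-1)
    simpa using this
  have hsym : ∫ s, (gE F c (-s)) ^ i ∂(law j) = ∫ s, (gE F c s) ^ i ∂(law j) :=
    law_symm j (fun s => (gE F c s) ^ i) ((gE_cont hC hF).measurable.pow_const i)
  have i1 : Integrable (fun s => (gE F c s) ^ i + (gE F c (-s)) ^ i) (law j) := hint.add hint'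
  have hz : ∫ s, ((gE F c s) ^ i + (gE F c (-s)) ^ i - 2 * (gE F c 0) ^ i) ∂(law j) = 0 := by
    rw [integral_sub i1 (integrable_const _), integral_add hint hint', hsym, hfix0,
      integral_const]
    simp only [probReal_univ, one_smul]
    ring
  have hid : ∀ s, |s| ≤ 1 → (gE F c s) ^ i + (gE F c (-s)) ^ i - 2 * (gE F c 0) ^ i =
      ((gE F c s) ^ (i / 2) - (gE F c (-s)) ^ (i / 2)) ^ 2 := by
    intro s hs
    have p1 := hpos s
    have p2 := hpos (-s)
    have p0 := hpos 0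
    have e1 : ((gE F c s) ^ (i / 2)) ^ 2 = (gE F c s) ^ i := by
      rw [← Real.rpow_natCast, ← Real.rpow_mul (by linarith)]
      congr 1; push_cast; ring
    have e2 : ((gE F c (-s)) ^ (i / 2)) ^ 2 = (gE F c (-s)) ^ i := by
      rw [← Real.rpow_natCast, ← Real.rpow_mul (by linarith)]
      congr 1; push_cast; ring
    have e3 : (gE F c s) ^ (i / 2) * (gE F c (-s)) ^ (i / 2) = (gE F c 0) ^ i := by
      rw [← Real.mul_rpow (by linarith) (by linarith), hprod s hs, ← Real.rpow_natCast,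
        ← Real.rpow_mul (by linarith)]
      congr 1; push_cast; ring
    rw [sub_sq, e1, e2, mul_assoc, e3]
    ring
  have hae : ∀ᵐ s ∂(law j), (gE F c s) ^ i + (gE F c (-s)) ^ i - 2 * (gE F c 0) ^ i = 0 := by
    have hnn : 0 ≤ᵐ[law j] fun s => (gE F c s) ^ i + (gE F c (-s)) ^ i - 2 * (gE F c 0) ^ i := by
      filter_upwards [law_le j] with s hs
      rw [Pi.zero_apply, hid s hs]
      positivity
    exact (integral_eq_zero_iff_of_nonneg_ae hnn
      (i1.sub (integrable_const _))).1 hz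
  have hs0 : ∀ᵐ s ∂(law j), s ^ 2 = 0 := by
    filter_upwards [hae, law_le j] with s hs hs1
    rw [hid s hs1] at hs
    have e1 : (gE F c s) ^ (i / 2) = (gE F c (-s)) ^ (i / 2) := by
      have := pow_eq_zero_iff (two_ne_zero) |>.1 hs
      linarith
    have e2 : gE F c s = gE F c (-s) := by
      have p1 := hpos s
      have p2 := hpos (-s)
      exact (Real.rpow_left_inj (by linarith) (by linarith) (by positivity)).1 e1
    have e3 := hdiff s hs1
    rw [e2, sub_self] at e3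
    have : s = 0 := by
      rcases mul_eq_zero.1 e3.symm with h | h
      · linarith
      · exact h
    rw [this]; norm_num
  have h2 := second j
  rw [integral_congr_ae hs0, integral_zero] at h2
  have : (0 : ℝ) < 1 / ((j : ℝ) + 2) := by positivity
  linarith

theorem exists_lat (e : Ej j) (he : ‖e‖ = 1) (τ : ℝ) (hτ : |τ| ≤ 1) :
    ∃ w : Ej j, ‖w‖ = 1 ∧ ⟪w, e⟫ = τ := by
  have he0 : e ≠ 0 := by
    intro h
    rw [h, norm_zero] at he
    exact zero_ne_one he
  have hfr : Module.finrank ℝ (Submodule.span ℝ {e})ᗮ = j + 2 := by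
    have hfact : Fact (Module.finrank ℝ (Ej j) = (j + 2) + 1) := ⟨by simp⟩
    exact Submodule.finrank_orthogonal_span_singleton he0
  have hnt : Nontrivial (Submodule.span ℝ {e})ᗮ :=
    Module.nontrivial_of_finrank_pos (R := ℝ) (by rw [hfr]; omega)
  obtain ⟨p, hp⟩ := exists_norm_eq (Submodule.span ℝ {e})ᗮ zero_le_one
  have hp1 : ‖(p : Ej j)‖ = 1 := hp
  have hpe : ⟪(p : Ej j), e⟫ = 0 := Submodule.mem_orthogonal_singleton_iff_inner_left.1 p.2
  have h1 : τ ^ 2 ≤ 1 := by rw [← sq_abs]; nlinarith [abs_nonneg τ]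
  refine ⟨τ • e + √(1 - τ ^ 2) • (p : Ej j), ?_, ?_⟩
  · have h2 : ‖τ • e + √(1 - τ ^ 2) • (p : Ej j)‖ ^ 2 = 1 := by
      rw [norm_add_sq_real, norm_smul, norm_smul, he, hp1, inner_smul_left, inner_smul_right,
        real_inner_comm, hpe, mul_one, mul_one, Real.norm_eq_abs, Real.norm_eq_abs, sq_abs, sq_abs,
        Real.sq_sqrt (by linarith)]
      ring
    have h3 := norm_nonneg (τ • e + √(1 - τ ^ 2) • (p : Ej j))
    nlinarith
  · rw [inner_add_left, inner_smul_left, inner_smul_left, hpe, real_inner_self_eq_norm_sq, he]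
    simp

theorem not_ball (i ε q : ℝ) (hc : 0 < c) (hH : Hyp (law j) i κ Φ a c ε q) {F : ℝ → ℝ}
    (hF : Good κ Φ a F) (hfix : ∀ x, |x| ≤ 1 → TF (law j) i c F x = F x) (e : Ej j)
    (he : ‖e‖ = 1) (z : Ej j) (R : ℝ) : LL F c e ≠ closedBall z R := by
  intro h
  have hC := hH.cst
  have hR : 0 ≤ R := by
    by_contra hR
    have h0 := (LL_star hC hF e he).zero_mem
    rw [h, closedBall_eq_empty.2 (not_le.1 hR)] at h0
    exact h0
  -- the centre
  have hz : z = c • e := by
    by_contra hne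
    have hd : 0 < ‖z - c • e‖ := norm_pos_iff.2 (sub_ne_zero.2 hne)
    set d := z - c • e with hdd
    have h1 : z + (R / ‖d‖) • d ∈ LL F c e := by
      rw [h, mem_closedBall, dist_eq_norm, add_sub_cancel_left, norm_smul,
        Real.norm_of_nonneg (by positivity), div_mul_cancel₀ _ hd.ne']
    rw [symm_LL hF e he, h, mem_closedBall, dist_eq_norm] at h1
    have h2 : (2 * c) • e - (z + (R / ‖d‖) • d) - z = -((2 + R / ‖d‖) • d) := by
      rw [two_mul, add_smul, add_smul, two_smul, hdd]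
      abel
    rw [h2, norm_neg, norm_smul, Real.norm_of_nonneg (by positivity), add_mul,
      div_mul_cancel₀ _ hd.ne'] at h1
    linarith
  have hFR : ∀ τ, |τ| ≤ 1 → F τ = R := by
    intro τ hτ
    obtain ⟨w, hw, hwe⟩ := exists_lat e he τ hτ
    have hmem : ∀ t : ℝ, 0 < t → (t ≤ F τ ↔ t ≤ R) := by
      intro t ht
      have h1 : c • e + t • w ∈ LL F c e ↔ t ≤ F τ := by
        unfold LL
        rw [mem_ofPred_eq, add_sub_cancel_left, norm_smul, hw, Real.norm_of_nonneg ht.le,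
          inner_smul_left, hwe, mul_one]
        simp only [conj_trivial]
        rw [mul_div_cancel_left₀ _ ht.ne']
      have h2 : c • e + t • w ∈ LL F c e ↔ t ≤ R := by
        rw [h, hz, mem_closedBall, dist_eq_norm, add_sub_cancel_left, norm_smul, hw,
          Real.norm_of_nonneg ht.le, mul_one]
      rw [← h1, h2]
    have hF0 := (F_ge hC hF τ hτ).1
    have hFle : F τ ≤ R := (hmem (F τ) (by linarith)).1 le_rfl
    have hRle : R ≤ F τ := (hmem R (by linarith)).2 le_rfl
    linarith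
  have hR1 : R = 1 := by rw [← hFR 1 (by simp), hF.one]
  exact not_const i ε q hc hH hF hfix fun x hx => by rw [hFR x hx, hR1]

/-- the axis -/
theorem axis (hC : Cst κ Φ a c) {F : ℝ → ℝ} (hF : Good κ Φ a F) (e : Ej j) (he : ‖e‖ = 1)
    (t : ℝ) : (c + t) • e ∈ LL F c e ↔ |t| ≤ 1 := by
  have h1 : (c + t) • e - c • e = t • e := by rw [add_smul, add_sub_cancel_left]
  unfold LL
  rw [mem_ofPred_eq, h1, norm_smul, he, mul_one, inner_smul_left, real_inner_self_eq_norm_sq, he,
    Real.norm_eq_abs]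
  simp only [conj_trivial, one_pow, mul_one]
  rcases lt_trichotomy t 0 with ht | ht | ht
  · rw [abs_of_neg ht, div_neg, div_self ht.ne, F_even hF 1 (by simp), hF.one]
  · rw [ht]
    simp only [abs_zero, div_zero, zero_le_one, iff_true]
    have := (F_ge hC hF 0 (by simp)).1
    linarith
  · rw [abs_of_pos ht, div_self ht.ne', hF.one]

/-- existence -/
theorem main (j : ℕ) (i : ℝ) (hi : 0 < i) (hin : i < (j : ℝ) + 2) :
    ∃ c₀ : ℝ, 0 < c₀ ∧ ∀ c : ℝ, 0 < c → c < c₀ → ∀ e : Ej j, ‖e‖ = 1 →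
      ∃ L : Set (Ej j), IsStarBody L ∧ closedBall 0 (1 / 2) ⊆ L ∧
        (∀ x, x ∈ L ↔ (2 * c) • e - x ∈ L) ∧
        (∀ t : ℝ, (c + t) • e ∈ L ↔ |t| ≤ 1) ∧
        (∀ z R, L ≠ closedBall z R) ∧
        ∃ r : ℝ, 0 < r ∧ intersectionBody i L = (fun z => (-(r * c)) • e + r • z) '' L := by
  have hv : i * ∫ s, s ^ 2 ∂(law j) < 1 := by
    rw [second, mul_one_div, div_lt_one (by positivity)]
    exact hin
  obtain ⟨κ, Φ, a, ε, q, c₀, hc₀, hH⟩ := exists_hyp (law j) (law_lt j) i hi hv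
  refine ⟨c₀, hc₀, fun c hc hcc e he => ?_⟩
  have hH' := hH c hc.le hcc
  obtain ⟨F, hF, hfix⟩ := exists_fixed hH'
  refine ⟨LL F c e, LL_star hH'.cst hF e he, ?_, symm_LL hF e he, axis hH'.cst hF e he,
    not_ball i ε q hc hH' hF hfix e he, body_eq i ε q hH' hF hfix e he⟩
  intro x hx
  rw [mem_closedBall, dist_zero_right] at hx
  obtain ⟨v, hv, hxv⟩ := exists_unit x
  rw [hxv]
  refine (mem_LL_root hH'.cst hF v e hv he _ (norm_nonneg _)).2 (hx.trans ?_)
  exact (root_spec hH'.cst hF _ (inner_abs v e hv he)).1.1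

end Pool.Agent.J6H70.IB
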