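import Pool.Agent.J6H70.IB.Root
import Pool.Agent.W143.DQ.Schauder

/-! The fixed point. -/

set_option autoImplicit false

namespace Pool.Agent.J6H70.IB

open MeasureTheory Set Filter Topology BoundedContinuousFunction

/-- the mean of `g ^ i` over the latitudes `s σ` -/
noncomputable def AA (μ : Measure ℝ) (i : ℝ) (g : ℝ → ℝ) (σ : ℝ) : ℝ := ∫ s, (g (s * σ)) ^ i ∂μ

/-- hypotheses on the constants -/
structure Hyp (μ : Measure ℝ) (i κ Φ a c ε q : ℝ) : Prop where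
  cst : Cst κ Φ a c
  i0 : 0 < i
  ε0 : 0 < ε
  q0 : 0 < q
  mu : ∀ᵐ s ∂μ, |s| < 1
  pow : ∀ z w, |z - 1| ≤ a * (1 + κ * (1 + Φ)) + c → |w - 1| ≤ a * (1 + κ * (1 + Φ)) + c →
    |z ^ i - w ^ i| ≤ i * (1 + ε) * |z - w|
  low : ∀ z, |z - 1| ≤ a * (1 + κ * (1 + Φ)) + c → 1 ≤ (1 + ε) * z ^ i
  lin : ∀ x y : ℝ, |x| ≤ 1 → |y| ≤ 1 →
      ∫ s, DD κ Φ (s * √(1 - x ^ 2)) (s * √(1 - y ^ 2)) ∂μ ≤ q / i * DD κ Φ x y
  fin : (1 + ε) ^ 2 * (i * (2 * c / (κ * Φ)) + q * (a * (1 + c * (11 + 7 / κ + 5 * Φ)))) ≤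
    a * slope κ Φ a c

variable {μ : Measure ℝ} {i κ Φ a c ε q : ℝ}

theorem gE_range (hH : Hyp μ i κ Φ a c ε q) {F : ℝ → ℝ} (hF : Good κ Φ a F) (τ : ℝ) :
    1 / 2 ≤ gE F c τ ∧ gE F c τ ≤ 2 := by
  have h := abs_le.1 (gE_near hH.cst hF τ)
  have := hH.cst.ha
  have := hH.cst.c1
  constructor <;> linarith [h.1, h.2]

theorem gE_pow_cont (hH : Hyp μ i κ Φ a c ε q) {F : ℝ → ℝ} (hF : Good κ Φ a F) :
    Continuous fun τ => (gE F c τ) ^ i := by
  refine (gE_cont hH.cst hF).rpow_const fun τ => Or.inl ?_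
  have := (gE_range hH hF τ).1
  intro h
  linarith

theorem gE_pow_int [IsProbabilityMeasure μ] (hH : Hyp μ i κ Φ a c ε q) {F : ℝ → ℝ}
    (hF : Good κ Φ a F) (σ : ℝ) : Integrable (fun s => (gE F c (s * σ)) ^ i) μ := by
  refine Integrable.of_bound
    ((gE_pow_cont hH hF).comp (by fun_prop : Continuous fun s : ℝ => s * σ)).aestronglyMeasurable
    (2 ^ i) (Eventually.of_forall fun s => ?_)
  have h := gE_range hH hF (s * σ)
  rw [Real.norm_of_nonneg (Real.rpow_nonneg (by linarith) _)]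
  exact Real.rpow_le_rpow (by linarith) h.2 hH.i0.le

theorem DD_int [IsProbabilityMeasure μ] (hκ : 0 ≤ κ) (hΦ : 0 ≤ Φ) (hμ : ∀ᵐ s ∂μ, |s| < 1)
    (A B : ℝ) (hA0 : 0 ≤ A) (hB0 : 0 ≤ B) (hA1 : A ≤ 1) (hB1 : B ≤ 1) :
    Integrable (fun s : ℝ => DD κ Φ (s * A) (s * B)) μ := by
  refine Integrable.of_bound (DD_cont κ Φ A B).aestronglyMeasurable (1 + κ * (1 + Φ)) ?_
  filter_upwards [hμ] with s hs
  rw [Real.norm_of_nonneg (DD_nonneg hκ hΦ _ _)]
  apply DD_bdd hκ hΦ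
  · rw [abs_mul, abs_of_nonneg hA0]; nlinarith [abs_nonneg s]
  · rw [abs_mul, abs_of_nonneg hB0]; nlinarith [abs_nonneg s]

theorem sqrt_range (x : ℝ) : 0 ≤ √(1 - x ^ 2) ∧ √(1 - x ^ 2) ≤ 1 :=
  ⟨Real.sqrt_nonneg _, Real.sqrt_le_one.2 (by nlinarith [sq_nonneg x])⟩

/-- the Lipschitz estimate of the mean -/
theorem AA_diff [IsProbabilityMeasure μ] (hH : Hyp μ i κ Φ a c ε q) {F : ℝ → ℝ}
    (hF : Good κ Φ a F) (x y : ℝ) (hx : |x| ≤ 1) (hy : |y| ≤ 1) :
    slope κ Φ a c * |AA μ i (gE F c) √(1 - x ^ 2) - AA μ i (gE F c) √(1 - y ^ 2)| ≤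
      i * (1 + ε) * (2 * c / (κ * Φ) * DD κ Φ x y +
        a * ((1 + c * (11 + 7 / κ + 5 * Φ)) * (q / i * DD κ Φ x y))) := by
  have hs := slope_pos hH.cst
  obtain ⟨hA0, hA1⟩ := sqrt_range x
  obtain ⟨hB0, hB1⟩ := sqrt_range y
  have hκ := hH.cst.κ0
  have hΦ := hH.cst.Φ0
  have ha := hH.cst.a0
  have hc := hH.cst.c0
  have hlin := hH.lin x y hx hy
  have hAB : κ * Φ * |√(1 - x ^ 2) - √(1 - y ^ 2)| ≤ DD κ Φ x y := by
    unfold DD
    have := abs_nonneg (x ^ 2 - y ^ 2)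
    have : 0 ≤ κ * |(|x| - |y|)| := by positivity
    linarith
  set A := √(1 - x ^ 2) with hA
  set B := √(1 - y ^ 2) with hB
  set θ := 1 + c * (11 + 7 / κ + 5 * Φ) with hθ
  have hθ0 : 0 ≤ θ := by positivity
  have hi1 := gE_pow_int hH hF A
  have hi2 := gE_pow_int hH hF B
  have hDi := DD_int (μ := μ) hκ.le hΦ.le hH.mu A B hA0 hB0 hA1 hB1
  have e1 : AA μ i (gE F c) A - AA μ i (gE F c) B =
      ∫ s, ((gE F c (s * A)) ^ i - (gE F c (s * B)) ^ i) ∂μ := by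
    unfold AA
    rw [integral_sub hi1 hi2]
  have hpt : ∀ᵐ s ∂μ, slope κ Φ a c * ‖(gE F c (s * A)) ^ i - (gE F c (s * B)) ^ i‖ ≤
      i * (1 + ε) * (2 * c * |A - B| + a * (θ * DD κ Φ (s * A) (s * B))) := by
    filter_upwards [hH.mu] with s hs1
    have hsA : |s * A| ≤ 1 := by
      rw [abs_mul, abs_of_nonneg hA0]; nlinarith [abs_nonneg s]
    have hsB : |s * B| ≤ 1 := by
      rw [abs_mul, abs_of_nonneg hB0]; nlinarith [abs_nonneg s]
    have h1 := hH.pow _ _ (gE_near hH.cst hF (s * A)) (gE_near hH.cst hF (s * B))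
    have h2 := root_diff hH.cst hF (s * A) (s * B) hsA hsB (by
      have : s * A * (s * B) = s ^ 2 * (A * B) := by ring
      rw [this]; positivity)
    rw [← gE_eq hsA, ← gE_eq hsB] at h2
    have h3 : |s * A - s * B| ≤ |A - B| := by
      rw [← mul_sub, abs_mul]
      nlinarith [abs_nonneg (A - B), abs_nonneg s]
    have hε := hH.ε0
    have hi0 := hH.i0
    rw [Real.norm_eq_abs]
    calc slope κ Φ a c * |(gE F c (s * A)) ^ i - (gE F c (s * B)) ^ i|
        ≤ slope κ Φ a c * (i * (1 + ε) * |gE F c (s * A) - gE F c (s * B)|) :=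
          mul_le_mul_of_nonneg_left h1 hs.le
      _ = i * (1 + ε) * (slope κ Φ a c * |gE F c (s * A) - gE F c (s * B)|) := by ring
      _ ≤ i * (1 + ε) * (2 * c * |s * A - s * B| + a * (θ * DD κ Φ (s * A) (s * B))) :=
          mul_le_mul_of_nonneg_left h2 (by positivity)
      _ ≤ _ := by
          apply mul_le_mul_of_nonneg_left _ (by positivity)
          have := mul_le_mul_of_nonneg_left h3 (show 0 ≤ 2 * c by positivity)
          linarith
  have hbi : Integrable (fun s => i * (1 + ε) * (2 * c * |A - B| +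
      a * (θ * DD κ Φ (s * A) (s * B)))) μ :=
    ((integrable_const _).add ((hDi.const_mul _).const_mul _)).const_mul _
  have h4 := integral_mono_ae ((hi1.sub hi2).norm.const_mul (slope κ Φ a c)) hbi hpt
  have h5 : slope κ Φ a c * |AA μ i (gE F c) A - AA μ i (gE F c) B| ≤
      slope κ Φ a c * ∫ s, ‖(gE F c (s * A)) ^ i - (gE F c (s * B)) ^ i‖ ∂μ := by
    apply mul_le_mul_of_nonneg_left _ hs.le
    rw [e1]
    have := norm_integral_le_integral_norm (μ := μ)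
      (fun s => (gE F c (s * A)) ^ i - (gE F c (s * B)) ^ i)
    rwa [Real.norm_eq_abs] at this
  refine h5.trans ?_
  rw [← integral_const_mul]
  refine h4.trans ?_
  rw [integral_const_mul, integral_add (integrable_const _) ((hDi.const_mul _).const_mul _),
    integral_const, integral_const_mul, integral_const_mul]
  simp only [probReal_univ, one_smul]
  have hε := hH.ε0
  have hi0 := hH.i0
  apply mul_le_mul_of_nonneg_left _ (by positivity)
  apply add_le_add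
  · rw [div_mul_eq_mul_div, le_div_iff₀ (by positivity)]
    nlinarith
  · exact mul_le_mul_of_nonneg_left (mul_le_mul_of_nonneg_left hlin hθ0) ha.le

/-- the interval of latitudes -/
abbrev X := Icc (-1 : ℝ) 1

/-- extension of a function on the interval -/
noncomputable def ext (f : X →ᵇ ℝ) : ℝ → ℝ := IccExtend (by norm_num : (-1 : ℝ) ≤ 1) f

/-- the convex set -/
def KK (κ Φ a : ℝ) : Set (X →ᵇ ℝ) :=
  {f | f ⟨1, by norm_num⟩ = 1 ∧ ∀ x y : X, |f x - f y| ≤ a * DD κ Φ x y}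

theorem ext_good (f : X →ᵇ ℝ) (hf : f ∈ KK κ Φ a) : Good κ Φ a (ext f) := by
  refine ⟨f.continuous.Icc_extend', fun x y hx hy => ?_, ?_⟩
  · have hx' := abs_le.1 hx
    have hy' := abs_le.1 hy
    unfold ext
    rw [IccExtend_of_mem _ _ hx', IccExtend_of_mem _ _ hy']
    exact hf.2 _ _
  · unfold ext
    rw [IccExtend_of_mem _ _ (by norm_num : (1 : ℝ) ∈ Icc (-1 : ℝ) 1)]
    exact hf.1

theorem DD_self (κ Φ x : ℝ) : DD κ Φ x x = 0 := by simp [DD]

theorem KK_compact (hκ : 0 ≤ κ) (hΦ : 0 ≤ Φ) (ha : 0 ≤ a) : IsCompact (KK κ Φ a) := by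
  have hxabs : ∀ x : X, |(x : ℝ)| ≤ 1 := fun x => abs_le.2 x.2
  apply arzela_ascoli₂ (Icc (1 - a * (1 + κ * (1 + Φ))) (1 + a * (1 + κ * (1 + Φ)))) isCompact_Icc
  · have h1 : KK κ Φ a = {f | f ⟨1, by norm_num⟩ = 1} ∩
        ⋂ x : X, ⋂ y : X, {f | |f x - f y| ≤ a * DD κ Φ x y} := by
      ext f
      simp only [KK, mem_inter_iff, mem_iInter, mem_ofPred_eq]
    rw [h1]
    have hev : ∀ x : X, Continuous fun f : X →ᵇ ℝ => f x := fun x =>
      continuous_eval_const x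
    refine (isClosed_eq (hev _) continuous_const).inter ?_
    refine isClosed_iInter fun x => isClosed_iInter fun y => ?_
    exact isClosed_le ((hev x).sub (hev y)).abs continuous_const
  · intro f x hf
    have h := hf.2 x ⟨1, by norm_num⟩
    rw [hf.1] at h
    have h2 := abs_le.1 (h.trans (mul_le_mul_of_nonneg_left
      (DD_bdd hκ hΦ x 1 (hxabs x) (by simp)) ha))
    constructor <;> linarith [h2.1, h2.2]
  · intro x₀
    rw [Metric.equicontinuousAt_iff_right]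
    intro δ hδ
    have h1 : Continuous fun x : X => a * DD κ Φ x₀ x := by
      unfold DD; fun_prop
    have h2 : Tendsto (fun x : X => a * DD κ Φ x₀ x) (𝓝 x₀) (𝓝 0) := by
      have := h1.tendsto x₀
      rwa [DD_self, mul_zero] at this
    filter_upwards [h2.eventually (gt_mem_nhds hδ)] with x hx f
    exact (f.2.2 x₀ x).trans_lt hx

theorem KK_convex : Convex ℝ (KK κ Φ a) := by
  intro f hf g hg s t hs ht hst
  constructor
  · have : (s • f + t • g) ⟨1, by norm_num⟩ = s * f ⟨1, by norm_num⟩ + t * g ⟨1, by norm_num⟩ := rfl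
    rw [this, hf.1, hg.1]
    linarith
  · intro x y
    have : (s • f + t • g) x - (s • f + t • g) y = s * (f x - f y) + t * (g x - g y) := by
      have h1 : (s • f + t • g) x = s * f x + t * g x := rfl
      have h2 : (s • f + t • g) y = s * f y + t * g y := rfl
      rw [h1, h2]; ring
    rw [this]
    refine (abs_add_le _ _).trans ?_
    rw [abs_mul, abs_mul, abs_of_nonneg hs, abs_of_nonneg ht]
    have h1 := mul_le_mul_of_nonneg_left (hf.2 x y) hs
    have h2 := mul_le_mul_of_nonneg_left (hg.2 x y) ht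
    calc _ ≤ s * (a * DD κ Φ x y) + t * (a * DD κ Φ x y) := add_le_add h1 h2
      _ = (s + t) * (a * DD κ Φ x y) := by ring
      _ = _ := by rw [hst, one_mul]

theorem KK_nonempty (hκ : 0 ≤ κ) (hΦ : 0 ≤ Φ) (ha : 0 ≤ a) : (KK κ Φ a).Nonempty := by
  refine ⟨BoundedContinuousFunction.const X 1, rfl, fun x y => ?_⟩
  have : 0 ≤ a * DD κ Φ x y := mul_nonneg ha (DD_nonneg hκ hΦ _ _)
  simpa using this

/-- the new profile -/
noncomputable def TF (μ : Measure ℝ) (i c : ℝ) (F : ℝ → ℝ) (x : ℝ) : ℝ :=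
  AA μ i (gE F c) √(1 - x ^ 2) / (gE F c 0) ^ i

theorem gE0_pos (hH : Hyp μ i κ Φ a c ε q) {F : ℝ → ℝ} (hF : Good κ Φ a F) :
    0 < (gE F c 0) ^ i := Real.rpow_pos_of_pos (by linarith [(gE_range hH hF 0).1]) _

theorem TF_one [IsProbabilityMeasure μ] (hH : Hyp μ i κ Φ a c ε q) {F : ℝ → ℝ}
    (hF : Good κ Φ a F) : TF μ i c F 1 = 1 := by
  unfold TF AA
  simp only [one_pow, sub_self, Real.sqrt_zero, mul_zero, integral_const, probReal_univ, one_smul]
  exact div_self (gE0_pos hH hF).ne'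

theorem TF_lip [IsProbabilityMeasure μ] (hH : Hyp μ i κ Φ a c ε q) {F : ℝ → ℝ}
    (hF : Good κ Φ a F) (x y : ℝ) (hx : |x| ≤ 1) (hy : |y| ≤ 1) :
    |TF μ i c F x - TF μ i c F y| ≤ a * DD κ Φ x y := by
  have hs := slope_pos hH.cst
  have h1 := AA_diff hH hF x y hx hy
  have h0 := gE0_pos hH hF
  have hlow := hH.low _ (gE_near hH.cst hF 0)
  have hD := DD_nonneg hH.cst.κ0.le hH.cst.Φ0.le x y
  have hi0 := hH.i0
  have hε := hH.ε0
  unfold TF
  rw [← sub_div, abs_div, abs_of_pos h0, div_le_iff₀ h0]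
  have h2 : slope κ Φ a c * |AA μ i (gE F c) √(1 - x ^ 2) - AA μ i (gE F c) √(1 - y ^ 2)| *
      (1 + ε) ≤ slope κ Φ a c * (a * DD κ Φ x y) := by
    calc slope κ Φ a c * |AA μ i (gE F c) √(1 - x ^ 2) - AA μ i (gE F c) √(1 - y ^ 2)| * (1 + ε)
        ≤ i * (1 + ε) * (2 * c / (κ * Φ) * DD κ Φ x y +
        a * ((1 + c * (11 + 7 / κ + 5 * Φ)) * (q / i * DD κ Φ x y))) * (1 + ε) :=
          mul_le_mul_of_nonneg_right h1 (by positivity)
      _ = (1 + ε) ^ 2 * (i * (2 * c / (κ * Φ)) + q * (a * (1 + c * (11 + 7 / κ + 5 * Φ)))) *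
          DD κ Φ x y := by
          field_simp
      _ ≤ a * slope κ Φ a c * DD κ Φ x y := mul_le_mul_of_nonneg_right hH.fin hD
      _ = _ := by ring
  have h3 : |AA μ i (gE F c) √(1 - x ^ 2) - AA μ i (gE F c) √(1 - y ^ 2)| * (1 + ε) ≤
      a * DD κ Φ x y := by
    rw [mul_assoc] at h2
    exact le_of_mul_le_mul_left h2 hs
  have h4 : 0 ≤ a * DD κ Φ x y := mul_nonneg hH.cst.a0.le hD
  have h5 : |AA μ i (gE F c) √(1 - x ^ 2) - AA μ i (gE F c) √(1 - y ^ 2)| ≤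
      a * DD κ Φ x y / (1 + ε) := by
    rwa [le_div_iff₀ (by positivity)]
  refine h5.trans ?_
  rw [div_le_iff₀ (by positivity)]
  nlinarith

theorem TF_cont [IsProbabilityMeasure μ] (hH : Hyp μ i κ Φ a c ε q) {F : ℝ → ℝ}
    (hF : Good κ Φ a F) : Continuous fun x : X => TF μ i c F x := by
  rw [continuous_iff_continuousAt]
  intro x₀
  rw [ContinuousAt, tendsto_iff_norm_sub_tendsto_zero]
  have h1 : Continuous fun x : X => a * DD κ Φ x x₀ := by
    unfold DD; fun_prop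
  have h2 : Tendsto (fun x : X => a * DD κ Φ x x₀) (𝓝 x₀) (𝓝 0) := by
    have := h1.tendsto x₀
    rwa [DD_self, mul_zero] at this
  exact squeeze_zero (fun x => norm_nonneg _)
    (fun x => TF_lip hH hF x x₀ (abs_le.2 x.2) (abs_le.2 x₀.2)) h2

theorem AA_range [IsProbabilityMeasure μ] (hH : Hyp μ i κ Φ a c ε q) {F : ℝ → ℝ}
    (hF : Good κ Φ a F) (σ : ℝ) : 0 ≤ AA μ i (gE F c) σ ∧ AA μ i (gE F c) σ ≤ 2 ^ i := by
  constructor
  · exact integral_nonneg fun s => Real.rpow_nonneg (by linarith [(gE_range hH hF (s * σ)).1]) _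
  · have h := integral_mono (gE_pow_int hH hF σ) (integrable_const ((2 : ℝ) ^ i)) (fun s =>
      Real.rpow_le_rpow (by linarith [(gE_range hH hF (s * σ)).1]) (gE_range hH hF (s * σ)).2
        hH.i0.le)
    simpa [AA] using h

theorem gE_sub (hH : Hyp μ i κ Φ a c ε q) {F G : ℝ → ℝ} (hF : Good κ Φ a F) (hG : Good κ Φ a G)
    (M : ℝ) (hM : ∀ x, |x| ≤ 1 → |F x - G x| ≤ M) (τ : ℝ) :
    |(gE F c τ) ^ i - (gE G c τ) ^ i| ≤ i * (1 + ε) / slope κ Φ a c * M := by
  have hs := slope_pos hH.cst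
  have h1 := hH.pow _ _ (gE_near hH.cst hF τ) (gE_near hH.cst hG τ)
  have h2 : slope κ Φ a c * |gE F c τ - gE G c τ| ≤ M := by
    unfold gE
    exact root_F hH.cst hF hG M hM _
      (abs_le.2 ⟨le_max_left _ _, max_le (by norm_num) (min_le_left _ _)⟩)
  refine h1.trans ?_
  have hi0 := hH.i0
  have hε := hH.ε0
  rw [div_mul_eq_mul_div, le_div_iff₀ hs]
  calc i * (1 + ε) * |gE F c τ - gE G c τ| * slope κ Φ a c
      = i * (1 + ε) * (slope κ Φ a c * |gE F c τ - gE G c τ|) := by ring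
    _ ≤ _ := mul_le_mul_of_nonneg_left h2 (by positivity)

theorem TF_sub [IsProbabilityMeasure μ] (hH : Hyp μ i κ Φ a c ε q) {F G : ℝ → ℝ}
    (hF : Good κ Φ a F) (hG : Good κ Φ a G) (M : ℝ) (hM : ∀ x, |x| ≤ 1 → |F x - G x| ≤ M)
    (x : ℝ) : |TF μ i c F x - TF μ i c G x| ≤
      (2 * 2 ^ i * (i * (1 + ε) / slope κ Φ a c) * (1 + ε) ^ 2) * M := by
  set L := i * (1 + ε) / slope κ Φ a c with hL
  have hM0 : 0 ≤ M := (abs_nonneg _).trans (hM 0 (by simp))
  have hs := slope_pos hH.cst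
  have hi0 := hH.i0
  have hε := hH.ε0
  have hL0 : 0 ≤ L := by positivity
  have ha : |AA μ i (gE F c) √(1 - x ^ 2) - AA μ i (gE G c) √(1 - x ^ 2)| ≤ L * M := by
    unfold AA
    rw [← integral_sub (gE_pow_int hH hF _) (gE_pow_int hH hG _)]
    have h1 := norm_integral_le_of_norm_le_const (μ := μ) (C := L * M)
      (f := fun s => gE F c (s * √(1 - x ^ 2)) ^ i - gE G c (s * √(1 - x ^ 2)) ^ i)
      (Eventually.of_forall fun s => gE_sub hH hF hG M hM _)
    simpa using h1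
  have hb := gE_sub hH hF hG M hM 0
  rw [← hL] at hb
  obtain ⟨hG1, hG2⟩ := AA_range hH hG √(1 - x ^ 2)
  have hb1 := gE0_pos hH hF
  have hb2 := gE0_pos hH hG
  have hb3 := hH.low _ (gE_near hH.cst hF 0)
  have hb4 := hH.low _ (gE_near hH.cst hG 0)
  have hb5 : (gE G c 0) ^ i ≤ 2 ^ i := Real.rpow_le_rpow (by linarith [(gE_range hH hG 0).1])
    (gE_range hH hG 0).2 hi0.le
  unfold TF
  set A := AA μ i (gE F c) √(1 - x ^ 2)
  set A' := AA μ i (gE G c) √(1 - x ^ 2)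
  set B := (gE F c 0) ^ i
  set B' := (gE G c 0) ^ i
  have e : A / B - A' / B' = ((A - A') * B' - A' * (B - B')) / (B * B') := by
    field_simp
    ring
  rw [e, abs_div, abs_of_pos (mul_pos hb1 hb2), div_le_iff₀ (mul_pos hb1 hb2)]
  have h1 : |(A - A') * B' - A' * (B - B')| ≤ 2 * 2 ^ i * L * M := by
    refine (abs_sub _ _).trans ?_
    rw [abs_mul, abs_mul, abs_of_pos hb2, abs_of_nonneg hG1]
    have h2 : |A - A'| * B' ≤ L * M * 2 ^ i := mul_le_mul ha hb5 hb2.le (by positivity)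
    have h3 : A' * |B - B'| ≤ 2 ^ i * (L * M) := mul_le_mul hG2 hb (abs_nonneg _) (by positivity)
    linarith
  refine h1.trans ?_
  have h4 : 1 ≤ (1 + ε) ^ 2 * (B * B') := by
    have := mul_le_mul hb3 hb4 zero_le_one (by positivity)
    nlinarith
  have h5 : 0 ≤ 2 * 2 ^ i * L * M := by positivity
  nlinarith

open Classical in
/-- the map of which we need a fixed point -/
noncomputable def TT (μ : Measure ℝ) (i κ Φ a c : ℝ) (f : X →ᵇ ℝ) : X →ᵇ ℝ :=
  if h : f ∈ KK κ Φ a ∧ Continuous fun x : X => TF μ i c (ext f) x then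
    BoundedContinuousFunction.mkOfCompact ⟨fun x : X => TF μ i c (ext f) x, h.2⟩ else f

theorem TT_apply [IsProbabilityMeasure μ] (hH : Hyp μ i κ Φ a c ε q) (f : X →ᵇ ℝ)
    (hf : f ∈ KK κ Φ a) (x : X) : TT μ i κ Φ a c f x = TF μ i c (ext f) x := by
  unfold TT
  rw [dif_pos ⟨hf, TF_cont hH (ext_good f hf)⟩]
  rfl

theorem ext_sub (f g : X →ᵇ ℝ) (x : ℝ) (hx : |x| ≤ 1) : |ext f x - ext g x| ≤ dist f g := by
  unfold ext
  rw [IccExtend_of_mem _ _ (abs_le.1 hx), IccExtend_of_mem _ _ (abs_le.1 hx), ← Real.dist_eq]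
  exact BoundedContinuousFunction.dist_coe_le_dist _

theorem exists_fixed [IsProbabilityMeasure μ] (hH : Hyp μ i κ Φ a c ε q) :
    ∃ F : ℝ → ℝ, Good κ Φ a F ∧ ∀ x, |x| ≤ 1 → TF μ i c F x = F x := by
  have hκ := hH.cst.κ0.le
  have hΦ := hH.cst.Φ0.le
  have ha := hH.cst.a0.le
  have hi0 := hH.i0
  have hε := hH.ε0
  have hs := slope_pos hH.cst
  have hcont : ContinuousOn (TT μ i κ Φ a c) (KK κ Φ a) := by
    set C := 2 * 2 ^ i * (i * (1 + ε) / slope κ Φ a c) * (1 + ε) ^ 2 with hC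
    have hC0 : 0 ≤ C := by positivity
    refine LipschitzOnWith.continuousOn (K := C.toNNReal) (LipschitzOnWith.of_dist_le_mul ?_)
    intro f hf g hg
    rw [Real.coe_toNNReal _ hC0]
    refine (BoundedContinuousFunction.dist_le (by positivity)).2 fun x => ?_
    rw [TT_apply hH f hf, TT_apply hH g hg, Real.dist_eq]
    exact TF_sub hH (ext_good f hf) (ext_good g hg) _ (fun y hy => ext_sub f g y hy) _
  obtain ⟨f, hf, hfix⟩ := Pool.Agent.W143.DQ.schauder (KK_compact hκ hΦ ha) KK_convex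
    (KK_nonempty hκ hΦ ha) (TT μ i κ Φ a c) hcont (by
      intro f hf
      constructor
      · rw [TT_apply hH f hf]
        exact TF_one hH (ext_good f hf)
      · intro x y
        rw [TT_apply hH f hf, TT_apply hH f hf]
        exact TF_lip hH (ext_good f hf) _ _ (abs_le.2 x.2) (abs_le.2 y.2))
  refine ⟨ext f, ext_good f hf, fun x hx => ?_⟩
  have h1 := TT_apply hH f hf ⟨x, abs_le.1 hx⟩
  rw [hfix] at h1
  rw [← h1]
  unfold ext
  rw [IccExtend_of_mem _ _ (abs_le.1 hx)]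

end Pool.Agent.J6H70.IB
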