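import Pool.Agent.J6H70.IB.Lin

/-! The radial function of a translate of a centred body of revolution. -/

set_option autoImplicit false

namespace Pool.Agent.J6H70.IB

open MeasureTheory Set Filter Topology

/-- `‖t v - c e‖` for unit vectors with `⟨v, e⟩ = τ` -/
noncomputable def Nn (c τ t : ℝ) : ℝ := √(t ^ 2 - 2 * t * c * τ + c ^ 2)

/-- the latitude of `t v - c e` -/
noncomputable def Yy (c τ t : ℝ) : ℝ := (t * τ - c) / Nn c τ t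

theorem Nn_arg (c τ t : ℝ) (hτ : |τ| ≤ 1) : 0 ≤ t ^ 2 - 2 * t * c * τ + c ^ 2 := by
  have h1 : τ ^ 2 ≤ 1 := by rw [← sq_abs]; nlinarith [abs_nonneg τ]
  have h2 : t ^ 2 - 2 * t * c * τ + c ^ 2 = (t - c * τ) ^ 2 + c ^ 2 * (1 - τ ^ 2) := by ring
  rw [h2]
  have := mul_nonneg (sq_nonneg c) (sub_nonneg.2 h1)
  positivity

theorem Nn_sq (c τ t : ℝ) (hτ : |τ| ≤ 1) : Nn c τ t ^ 2 = t ^ 2 - 2 * t * c * τ + c ^ 2 :=
  Real.sq_sqrt (Nn_arg c τ t hτ)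

theorem Nn_nonneg (c τ t : ℝ) : 0 ≤ Nn c τ t := Real.sqrt_nonneg _

theorem Nn_ge (c τ t : ℝ) (hc : 0 ≤ c) (ht : 0 ≤ t) (hτ : |τ| ≤ 1) : t - c ≤ Nn c τ t := by
  apply Real.le_sqrt_of_sq_le
  have := abs_le.1 hτ
  nlinarith [mul_nonneg hc ht]

theorem Nn_ge' (c τ t : ℝ) (hτ : |τ| ≤ 1) : |t - c * τ| ≤ Nn c τ t := by
  apply Real.le_sqrt_of_sq_le
  rw [sq_abs]
  have h1 : τ ^ 2 ≤ 1 := by rw [← sq_abs]; nlinarith [abs_nonneg τ]
  nlinarith [mul_nonneg (sq_nonneg c) (sub_nonneg.2 h1)]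

theorem Nn_le (c τ t : ℝ) (hc : 0 ≤ c) (ht : 0 ≤ t) (hτ : |τ| ≤ 1) : Nn c τ t ≤ t + c := by
  apply Real.sqrt_le_iff.2
  have := abs_le.1 hτ
  constructor
  · linarith
  · nlinarith [mul_nonneg hc ht]

theorem Nn_cont (c τ : ℝ) : Continuous fun t => Nn c τ t := by
  unfold Nn; fun_prop

theorem Nn_lip (c τ t t' : ℝ) (hτ : |τ| ≤ 1) (hp : 0 < Nn c τ t) :
    |Nn c τ t - Nn c τ t'| ≤ |t - t'| := by
  have h1 := Nn_sq c τ t hτ
  have h2 := Nn_sq c τ t' hτ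
  have h3 := Nn_ge' c τ t hτ
  have h4 := Nn_ge' c τ t' hτ
  have h5 := Nn_nonneg c τ t'
  have h6 : (Nn c τ t - Nn c τ t') * (Nn c τ t + Nn c τ t') =
      (t - t') * ((t - c * τ) + (t' - c * τ)) := by nlinarith
  have h7 : |(t - c * τ) + (t' - c * τ)| ≤ Nn c τ t + Nn c τ t' :=
    (abs_add_le _ _).trans (add_le_add h3 h4)
  have h8 : |Nn c τ t - Nn c τ t'| * (Nn c τ t + Nn c τ t') ≤
      |t - t'| * (Nn c τ t + Nn c τ t') := by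
    calc |Nn c τ t - Nn c τ t'| * (Nn c τ t + Nn c τ t')
        = |(Nn c τ t - Nn c τ t') * (Nn c τ t + Nn c τ t')| := by
          rw [abs_mul, abs_of_pos (show 0 < Nn c τ t + Nn c τ t' by linarith)]
      _ = |t - t'| * |(t - c * τ) + (t' - c * τ)| := by rw [h6, abs_mul]
      _ ≤ _ := mul_le_mul_of_nonneg_left h7 (abs_nonneg _)
  exact le_of_mul_le_mul_right h8 (by linarith)

theorem Nn_slope (c τ t t' : ℝ) (hc : 0 ≤ c) (hc1 : c ≤ 1 / 100) (hτ : |τ| ≤ 1)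
    (ht : 1 / 2 ≤ t) (htt : t ≤ t') : (1 - 4 * c) * (t' - t) ≤ Nn c τ t' - Nn c τ t := by
  have h1 := Nn_sq c τ t hτ
  have h2 := Nn_sq c τ t' hτ
  have h3 := Nn_le c τ t hc (by linarith) hτ
  have h4 := Nn_le c τ t' hc (by linarith) hτ
  have h5 := Nn_ge c τ t hc (by linarith) hτ
  have h5' := Nn_ge c τ t' hc (by linarith) hτ
  have hτ' := abs_le.1 hτ
  have h6 : (Nn c τ t' - Nn c τ t) * (Nn c τ t' + Nn c τ t) =
      (t' - t) * (t + t' - 2 * c * τ) := by nlinarith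
  have h7 : t + t' - 2 * c ≤ t + t' - 2 * c * τ := by nlinarith
  have h8 : (1 - 4 * c) * (t + t' + 2 * c) ≤ t + t' - 2 * c := by nlinarith
  have h9 : (1 - 4 * c) * (Nn c τ t' + Nn c τ t) ≤ t + t' - 2 * c * τ := by
    have : (1 - 4 * c) * (Nn c τ t' + Nn c τ t) ≤ (1 - 4 * c) * (t + t' + 2 * c) :=
      mul_le_mul_of_nonneg_left (by linarith) (by linarith)
    linarith
  have h10 : (1 - 4 * c) * (t' - t) * (Nn c τ t' + Nn c τ t) ≤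
      (Nn c τ t' - Nn c τ t) * (Nn c τ t' + Nn c τ t) := by
    rw [h6]
    calc (1 - 4 * c) * (t' - t) * (Nn c τ t' + Nn c τ t)
        = (t' - t) * ((1 - 4 * c) * (Nn c τ t' + Nn c τ t)) := by ring
      _ ≤ _ := mul_le_mul_of_nonneg_left h9 (by linarith)
  exact le_of_mul_le_mul_right h10 (by linarith)

theorem Nn_tau (c τ τ' t : ℝ) (hc : 0 ≤ c) (hc1 : c ≤ 1 / 100) (hτ : |τ| ≤ 1) (hτ' : |τ'| ≤ 1)
    (ht : 1 / 2 ≤ t) : |Nn c τ t - Nn c τ' t| ≤ 2 * c * |τ - τ'| := by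
  have h1 := Nn_sq c τ t hτ
  have h2 := Nn_sq c τ' t hτ'
  have h5 := Nn_ge c τ t hc (by linarith) hτ
  have h5' := Nn_ge c τ' t hc (by linarith) hτ'
  have hpos : t ≤ Nn c τ t + Nn c τ' t := by linarith
  have h6 : (Nn c τ t - Nn c τ' t) * (Nn c τ t + Nn c τ' t) = 2 * t * c * (τ' - τ) := by nlinarith
  have h8 : |Nn c τ t - Nn c τ' t| * (Nn c τ t + Nn c τ' t) = 2 * t * c * |τ - τ'| := by
    calc |Nn c τ t - Nn c τ' t| * (Nn c τ t + Nn c τ' t)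
        = |(Nn c τ t - Nn c τ' t) * (Nn c τ t + Nn c τ' t)| := by
          rw [abs_mul, abs_of_pos (show 0 < Nn c τ t + Nn c τ' t by linarith)]
      _ = _ := by
          rw [h6, abs_mul, abs_of_nonneg (show 0 ≤ 2 * t * c by positivity), abs_sub_comm τ' τ]
  have h9 : |Nn c τ t - Nn c τ' t| * t ≤ 2 * t * c * |τ - τ'| := by
    rw [← h8]
    exact mul_le_mul_of_nonneg_left hpos (abs_nonneg _)
  have h10 : |Nn c τ t - Nn c τ' t| * t ≤ (2 * c * |τ - τ'|) * t := by linarith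
  exact le_of_mul_le_mul_right h10 (by linarith)

theorem comp_bound (p p' N N' : ℝ) (hN : 0 < N) (hN' : 0 < N') (h : |p'| ≤ N') :
    |p / N - p' / N'| ≤ (|p - p'| + |N - N'|) / N := by
  have e : p / N - p' / N' = ((p - p') + p' / N' * (N' - N)) / N := by
    field_simp
    ring
  rw [e, abs_div, abs_of_pos hN]
  apply div_le_div_of_nonneg_right _ hN.le
  refine (abs_add_le _ _).trans ?_
  rw [abs_mul, abs_sub_comm N' N]
  have h1 : |p' / N'| ≤ 1 := by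
    rw [abs_div, abs_of_pos hN']
    exact (div_le_one hN').2 h
  have := mul_le_mul_of_nonneg_right h1 (abs_nonneg (N - N'))
  linarith

theorem Yy_sqrt (c τ t : ℝ) (hτ : |τ| ≤ 1) (ht : 0 ≤ t) (hN : 0 < Nn c τ t) :
    √(1 - Yy c τ t ^ 2) = t * √(1 - τ ^ 2) / Nn c τ t := by
  have h1 : τ ^ 2 ≤ 1 := by rw [← sq_abs]; nlinarith [abs_nonneg τ]
  have h2 : 1 - Yy c τ t ^ 2 = (t * √(1 - τ ^ 2) / Nn c τ t) ^ 2 := by
    unfold Yy
    rw [div_pow, div_pow, mul_pow, Real.sq_sqrt (by linarith), Nn_sq c τ t hτ]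
    have h3 : t ^ 2 - 2 * t * c * τ + c ^ 2 ≠ 0 := by
      rw [← Nn_sq c τ t hτ]; positivity
    rw [eq_div_iff h3, sub_mul, div_mul_cancel₀ _ h3]
    ring
  rw [h2, Real.sqrt_sq]
  positivity

theorem Yy_num (c τ t : ℝ) (hτ : |τ| ≤ 1) : |t * τ - c| ≤ Nn c τ t := by
  apply Real.le_sqrt_of_sq_le
  rw [sq_abs]
  have h1 : τ ^ 2 ≤ 1 := by rw [← sq_abs]; nlinarith [abs_nonneg τ]
  nlinarith [mul_nonneg (sq_nonneg t) (sub_nonneg.2 h1)]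

theorem sig_num (c τ t : ℝ) (hτ : |τ| ≤ 1) : |t * √(1 - τ ^ 2)| ≤ Nn c τ t := by
  apply Real.le_sqrt_of_sq_le
  have h1 : τ ^ 2 ≤ 1 := by rw [← sq_abs]; nlinarith [abs_nonneg τ]
  rw [sq_abs, mul_pow, Real.sq_sqrt (by linarith)]
  nlinarith [sq_nonneg (t * τ - c)]

theorem Yy_abs (c τ t : ℝ) (hτ : |τ| ≤ 1) : |Yy c τ t| ≤ 1 := by
  unfold Yy
  rw [abs_div, abs_of_nonneg (Nn_nonneg c τ t)]
  exact div_le_one_of_le₀ (Yy_num c τ t hτ) (Nn_nonneg c τ t)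

theorem DD_t (κ Φ c τ t t' : ℝ) (hκ : 0 ≤ κ) (hΦ : 0 ≤ Φ) (hc : 0 ≤ c) (hc1 : c ≤ 1 / 100)
    (hτ : |τ| ≤ 1) (ht : 1 / 2 ≤ t) (ht' : 1 / 2 ≤ t') :
    DD κ Φ (Yy c τ t) (Yy c τ t') ≤ 5 * (2 + κ + κ * Φ) * |t - t'| := by
  have hN := Nn_ge c τ t hc (by linarith) hτ
  have hN' := Nn_ge c τ t' hc (by linarith) hτ
  have hN0 : 0 < Nn c τ t := by linarith
  have hN0' : 0 < Nn c τ t' := by linarith
  have hl := Nn_lip c τ t t' hτ hN0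
  have hσ1 : √(1 - τ ^ 2) ≤ 1 := Real.sqrt_le_one.2 (by nlinarith [sq_nonneg τ])
  have hσ0 := Real.sqrt_nonneg (1 - τ ^ 2)
  have ha := abs_nonneg (t - t')
  have hy1 := Yy_abs c τ t hτ
  have hy2 := Yy_abs c τ t' hτ
  have key : ∀ z : ℝ, z ≤ 2 * |t - t'| → z / Nn c τ t ≤ 5 * |t - t'| := by
    intro z hz
    rw [div_le_iff₀ hN0]
    nlinarith
  have h1 : |Yy c τ t - Yy c τ t'| ≤ 5 * |t - t'| := by
    refine (comp_bound _ _ _ _ hN0 hN0' (Yy_num c τ t' hτ)).trans (key _ ?_)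
    have : |t * τ - c - (t' * τ - c)| ≤ |t - t'| := by
      rw [show t * τ - c - (t' * τ - c) = (t - t') * τ by ring, abs_mul]
      nlinarith
    linarith
  have h2 : |√(1 - Yy c τ t ^ 2) - √(1 - Yy c τ t' ^ 2)| ≤ 5 * |t - t'| := by
    rw [Yy_sqrt c τ t hτ (by linarith) hN0, Yy_sqrt c τ t' hτ (by linarith) hN0']
    refine (comp_bound _ _ _ _ hN0 hN0' (sig_num c τ t' hτ)).trans (key _ ?_)
    have : |t * √(1 - τ ^ 2) - t' * √(1 - τ ^ 2)| ≤ |t - t'| := by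
      rw [← sub_mul, abs_mul, abs_of_nonneg hσ0]
      nlinarith
    linarith
  have h3 : |Yy c τ t ^ 2 - Yy c τ t' ^ 2| ≤ 2 * (5 * |t - t'|) := by
    rw [sq_sub_sq, abs_mul]
    have : |Yy c τ t + Yy c τ t'| ≤ 2 := (abs_add_le _ _).trans (by linarith)
    exact mul_le_mul this h1 (abs_nonneg _) (by norm_num)
  have h4 : |(|Yy c τ t| - |Yy c τ t'|)| ≤ 5 * |t - t'| := (abs_abs_sub_abs_le _ _).trans h1
  unfold DD
  have h5 := mul_le_mul_of_nonneg_left h2 hΦ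
  have h6 := mul_le_mul_of_nonneg_left (add_le_add h4 h5) hκ
  calc _ ≤ 2 * (5 * |t - t'|) + κ * (5 * |t - t'| + Φ * (5 * |t - t'|)) := add_le_add h3 h6
    _ = _ := by ring

theorem same_sign (τ τ' : ℝ) (hs : 0 ≤ τ * τ') : |(|τ| - |τ'|)| = |τ - τ'| := by
  rcases le_total 0 τ with h | h <;> rcases le_total 0 τ' with h' | h'
  · rw [abs_of_nonneg h, abs_of_nonneg h']
  · rcases eq_or_lt_of_le h with h0 | h0
    · rw [← h0]; simp
    · have : τ' = 0 := by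
        by_contra h1
        have : τ' < 0 := lt_of_le_of_ne h' h1
        nlinarith
      rw [this]; simp
  · rcases eq_or_lt_of_le h with h0 | h0
    · rw [h0]; simp
    · have : τ' = 0 := by
        by_contra h1
        have : 0 < τ' := lt_of_le_of_ne h' (Ne.symm h1)
        nlinarith
      rw [this]; simp
  · rw [abs_of_nonpos h, abs_of_nonpos h', abs_sub_comm]
    congr 1
    ring

theorem tau_y (c τ τ' t : ℝ) (hc : 0 ≤ c) (hc1 : c ≤ 1 / 100)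
    (hτ : |τ| ≤ 1) (hτ' : |τ'| ≤ 1) (ht : 1 / 2 ≤ t) :
    |Yy c τ t - Yy c τ' t| ≤ (1 + 7 * c) * |τ - τ'| := by
  have hN := Nn_ge c τ t hc (by linarith) hτ
  have hN' := Nn_ge c τ' t hc (by linarith) hτ'
  have hN0 : 0 < Nn c τ t := by linarith
  have hN0' : 0 < Nn c τ' t := by linarith
  have hl := Nn_tau c τ τ' t hc hc1 hτ hτ' ht
  have hd := abs_nonneg (τ - τ')
  refine (comp_bound _ _ _ _ hN0 hN0' (Yy_num c τ' t hτ')).trans ?_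
  have e : |t * τ - c - (t * τ' - c)| = t * |τ - τ'| := by
    rw [show t * τ - c - (t * τ' - c) = t * (τ - τ') by ring, abs_mul,
      abs_of_nonneg (show (0 : ℝ) ≤ t by linarith)]
  rw [e, div_le_iff₀ hN0]
  have h2 : t + 2 * c ≤ (1 + 7 * c) * (t - c) := by nlinarith
  have h3 : (1 + 7 * c) * (t - c) ≤ (1 + 7 * c) * Nn c τ t :=
    mul_le_mul_of_nonneg_left hN (by linarith)
  have h4 := mul_le_mul_of_nonneg_right (h2.trans h3) hd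
  linarith

theorem y_bound (c z t : ℝ) (hc : 0 ≤ c) (hc1 : c ≤ 1 / 100) (hz : |z| ≤ 1) (ht : 1 / 2 ≤ t) :
    |Yy c z t| ≤ (1 + 3 * c) * |z| + 3 * c := by
  have hz' := Nn_ge c z t hc (by linarith) hz
  have hz0 : 0 < Nn c z t := by linarith
  unfold Yy
  rw [abs_div, abs_of_pos hz0, div_le_iff₀ hz0]
  have h2 : |t * z - c| ≤ t * |z| + c := by
    refine (abs_sub _ _).trans ?_
    rw [abs_mul, abs_of_nonneg (show (0 : ℝ) ≤ t by linarith), abs_of_nonneg hc]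
  have h3 : 0 ≤ (1 + 3 * c) * |z| + 3 * c := by positivity
  have h4 : ((1 + 3 * c) * |z| + 3 * c) * (t - c) ≤ ((1 + 3 * c) * |z| + 3 * c) * Nn c z t :=
    mul_le_mul_of_nonneg_left hz' h3
  have h5 : t * |z| ≤ (1 + 3 * c) * |z| * (t - c) := by
    have : t ≤ (1 + 3 * c) * (t - c) := by nlinarith
    have := mul_le_mul_of_nonneg_right this (abs_nonneg z)
    linarith
  have h6 : c ≤ 3 * c * (t - c) := by nlinarith
  linarith

theorem tau_y2 (c τ τ' t : ℝ) (hc : 0 ≤ c) (hc1 : c ≤ 1 / 100)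
    (hτ : |τ| ≤ 1) (hτ' : |τ'| ≤ 1) (hs : 0 ≤ τ * τ') (ht : 1 / 2 ≤ t) :
    |Yy c τ t ^ 2 - Yy c τ' t ^ 2| ≤
      (1 + 11 * c) * |τ ^ 2 - τ' ^ 2| + 7 * c * |τ - τ'| := by
  have hsame := same_sign τ τ' hs
  have hd := abs_nonneg (τ - τ')
  have hsq : |τ ^ 2 - τ' ^ 2| = |τ - τ'| * (|τ| + |τ'|) := by
    rw [← sq_abs τ, ← sq_abs τ', sq_sub_sq, abs_mul, hsame,
      abs_of_nonneg (show 0 ≤ |τ| + |τ'| by positivity), mul_comm]
  rw [sq_sub_sq, abs_mul]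
  have h3 : |Yy c τ t + Yy c τ' t| ≤ (1 + 3 * c) * (|τ| + |τ'|) + 6 * c := by
    refine (abs_add_le _ _).trans ?_
    have := y_bound c τ t hc hc1 hτ ht
    have := y_bound c τ' t hc hc1 hτ' ht
    linarith
  have h4 := mul_le_mul h3 (tau_y c τ τ' t hc hc1 hτ hτ' ht) (abs_nonneg _) (by positivity)
  refine h4.trans ?_
  rw [hsq]
  have e1 : ((1 + 3 * c) * (|τ| + |τ'|) + 6 * c) * ((1 + 7 * c) * |τ - τ'|) =
      ((1 + 3 * c) * (1 + 7 * c)) * (|τ - τ'| * (|τ| + |τ'|)) +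
        (6 * c * (1 + 7 * c)) * |τ - τ'| := by ring
  rw [e1]
  have h5 : (1 + 3 * c) * (1 + 7 * c) ≤ 1 + 11 * c := by nlinarith
  have h6 : 6 * c * (1 + 7 * c) ≤ 7 * c := by nlinarith
  have h7 : 0 ≤ |τ - τ'| * (|τ| + |τ'|) := by positivity
  exact add_le_add (mul_le_mul_of_nonneg_right h5 h7) (mul_le_mul_of_nonneg_right h6 hd)

theorem tau_s (c τ τ' t : ℝ) (hc : 0 ≤ c) (hc1 : c ≤ 1 / 100)
    (hτ : |τ| ≤ 1) (hτ' : |τ'| ≤ 1) (ht : 1 / 2 ≤ t) :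
    |√(1 - Yy c τ t ^ 2) - √(1 - Yy c τ' t ^ 2)| ≤
      (1 + 3 * c) * |√(1 - τ ^ 2) - √(1 - τ' ^ 2)| + 5 * c * |τ - τ'| := by
  have hN := Nn_ge c τ t hc (by linarith) hτ
  have hN' := Nn_ge c τ' t hc (by linarith) hτ'
  have hN0 : 0 < Nn c τ t := by linarith
  have hN0' : 0 < Nn c τ' t := by linarith
  have hl := Nn_tau c τ τ' t hc hc1 hτ hτ' ht
  have hd := abs_nonneg (τ - τ')
  rw [Yy_sqrt c τ t hτ (by linarith) hN0, Yy_sqrt c τ' t hτ' (by linarith) hN0']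
  refine (comp_bound _ _ _ _ hN0 hN0' (sig_num c τ' t hτ')).trans ?_
  rw [← mul_sub, abs_mul, abs_of_nonneg (show (0 : ℝ) ≤ t by linarith), div_le_iff₀ hN0]
  have hS := abs_nonneg (√(1 - τ ^ 2) - √(1 - τ' ^ 2))
  have h4' : t ≤ (1 + 3 * c) * (t - c) := by nlinarith
  have h4 : t ≤ (1 + 3 * c) * Nn c τ t :=
    h4'.trans (mul_le_mul_of_nonneg_left hN (by linarith))
  have h5' : 2 * c ≤ 5 * c * (t - c) := by nlinarith
  have h5 : 2 * c ≤ 5 * c * Nn c τ t :=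
    h5'.trans (mul_le_mul_of_nonneg_left hN (by linarith))
  have h6 := mul_le_mul_of_nonneg_right h4 hS
  have h7 := mul_le_mul_of_nonneg_right h5 hd
  linarith

theorem DD_tau (κ Φ c τ τ' t : ℝ) (hκ : 0 < κ) (hΦ : 0 ≤ Φ) (hc : 0 ≤ c) (hc1 : c ≤ 1 / 100)
    (hτ : |τ| ≤ 1) (hτ' : |τ'| ≤ 1) (hs : 0 ≤ τ * τ') (ht : 1 / 2 ≤ t) :
    DD κ Φ (Yy c τ t) (Yy c τ' t) ≤ (1 + c * (11 + 7 / κ + 5 * Φ)) * DD κ Φ τ τ' := by
  have hsame := same_sign τ τ' hs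
  have h2 := tau_y2 c τ τ' t hc hc1 hτ hτ' hs ht
  have h3 := tau_s c τ τ' t hc hc1 hτ hτ' ht
  have h4 : |(|Yy c τ t| - |Yy c τ' t|)| ≤ (1 + 7 * c) * |τ - τ'| :=
    (abs_abs_sub_abs_le _ _).trans (tau_y c τ τ' t hc hc1 hτ hτ' ht)
  have hDD : DD κ Φ τ τ' = |τ ^ 2 - τ' ^ 2| +
      κ * (|τ - τ'| + Φ * |√(1 - τ ^ 2) - √(1 - τ' ^ 2)|) := by
    unfold DD; rw [hsame]
  have hS0 := abs_nonneg (√(1 - τ ^ 2) - √(1 - τ' ^ 2))
  have hX0 := abs_nonneg (τ ^ 2 - τ' ^ 2)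
  have hδ0 := abs_nonneg (τ - τ')
  have h5 : DD κ Φ (Yy c τ t) (Yy c τ' t) ≤
      ((1 + 11 * c) * |τ ^ 2 - τ' ^ 2| + 7 * c * |τ - τ'|) + κ * ((1 + 7 * c) * |τ - τ'| +
        Φ * ((1 + 3 * c) * |√(1 - τ ^ 2) - √(1 - τ' ^ 2)| + 5 * c * |τ - τ'|)) := by
    unfold DD
    exact add_le_add h2 (mul_le_mul_of_nonneg_left
      (add_le_add h4 (mul_le_mul_of_nonneg_left h3 hΦ)) hκ.le)
  refine h5.trans ?_
  rw [hDD]
  generalize |τ ^ 2 - τ' ^ 2| = X at *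
  generalize |τ - τ'| = δ at *
  generalize |√(1 - τ ^ 2) - √(1 - τ' ^ 2)| = S at *
  have e : (1 + c * (11 + 7 / κ + 5 * Φ)) * (X + κ * (δ + Φ * S)) =
      ((1 + 11 * c) * X + 7 * c * δ) + κ * ((1 + 7 * c) * δ + Φ * ((1 + 3 * c) * S + 5 * c * δ)) +
        (c * (7 / κ + 5 * Φ) * X + κ * (4 * c * δ) + κ * (Φ * (8 * c * S)) +
          c * (7 / κ + 5 * Φ) * (κ * (Φ * S))) := by
    field_simp
    ring
  rw [e]
  have : 0 ≤ c * (7 / κ + 5 * Φ) * X + κ * (4 * c * δ) + κ * (Φ * (8 * c * S)) +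
          c * (7 / κ + 5 * Φ) * (κ * (Φ * S)) := by positivity
  linarith

end Pool.Agent.J6H70.IB
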