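import Mathlib

/-! The linear estimate: the spherical Radon transform contracts a weighted Lipschitz seminorm. -/

set_option autoImplicit false

namespace Pool.Agent.J6H70.IB

open MeasureTheory Set Filter Topology

/-- the weighted distance of two latitudes -/
noncomputable def DD (κ Φ x y : ℝ) : ℝ :=
  |x ^ 2 - y ^ 2| + κ * (|(|x| - |y|)| + Φ * |√(1 - x ^ 2) - √(1 - y ^ 2)|)

theorem DD_nonneg {κ Φ : ℝ} (hκ : 0 ≤ κ) (hΦ : 0 ≤ Φ) (x y : ℝ) : 0 ≤ DD κ Φ x y := by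
  unfold DD; positivity

theorem DD_comm (κ Φ x y : ℝ) : DD κ Φ x y = DD κ Φ y x := by
  unfold DD
  rw [abs_sub_comm (x ^ 2), abs_sub_comm |x|, abs_sub_comm √(1 - x ^ 2)]

theorem sqrt_lip (a P Q : ℝ) (ha : 0 ≤ a) (hP : 0 ≤ P) (hQ : 0 ≤ Q) :
    |√(a + P ^ 2) - √(a + Q ^ 2)| ≤ |P - Q| := by
  have hU := Real.sq_sqrt (show 0 ≤ a + P ^ 2 by positivity)
  have hV := Real.sq_sqrt (show 0 ≤ a + Q ^ 2 by positivity)
  have hU0 : P ≤ √(a + P ^ 2) := Real.le_sqrt_of_sq_le (by linarith)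
  have hV0 : Q ≤ √(a + Q ^ 2) := Real.le_sqrt_of_sq_le (by linarith)
  set U := √(a + P ^ 2)
  set V := √(a + Q ^ 2)
  have h1 : (U - V) * (U + V) = (P - Q) * (P + Q) := by nlinarith
  rcases eq_or_lt_of_le (show 0 ≤ U + V by linarith) with h | h
  · have hU1 : U = 0 := by linarith
    have hV1 : V = 0 := by linarith
    rw [hU1, hV1, sub_zero, abs_zero]
    exact abs_nonneg _
  · have h2 : |U - V| * (U + V) = |P - Q| * (P + Q) := by
      rw [← abs_of_pos h, ← abs_mul, h1, abs_mul, abs_of_nonneg (show 0 ≤ P + Q by linarith)]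
    have h3 : |U - V| * (U + V) ≤ |P - Q| * (U + V) := by
      rw [h2]
      exact mul_le_mul_of_nonneg_left (by linarith) (abs_nonneg _)
    exact le_of_mul_le_mul_right h3 h

theorem sqrt_lip2 (a P Q m : ℝ) (hm : 0 < m) (ha : m ^ 2 ≤ a) :
    |√(a + P ^ 2) - √(a + Q ^ 2)| ≤ |P ^ 2 - Q ^ 2| / (2 * m) := by
  have ha0 : 0 ≤ a := le_trans (by positivity) ha
  have hU := Real.sq_sqrt (show 0 ≤ a + P ^ 2 by positivity)
  have hV := Real.sq_sqrt (show 0 ≤ a + Q ^ 2 by positivity)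
  have hU0 : m ≤ √(a + P ^ 2) := Real.le_sqrt_of_sq_le (by nlinarith [sq_nonneg P])
  have hV0 : m ≤ √(a + Q ^ 2) := Real.le_sqrt_of_sq_le (by nlinarith [sq_nonneg Q])
  set U := √(a + P ^ 2)
  set V := √(a + Q ^ 2)
  have h1 : (U - V) * (U + V) = P ^ 2 - Q ^ 2 := by nlinarith
  rw [le_div_iff₀ (by positivity), ← h1, abs_mul, abs_of_pos (show 0 < U + V by linarith)]
  exact mul_le_mul_of_nonneg_left (by linarith) (abs_nonneg _)

/-- pointwise estimate of the last term -/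
theorem last_term (s x y θ : ℝ) (hs : |s| ≤ 1) (hθ0 : 0 ≤ θ) (hθ : θ < 1) (hx : |x| ≤ 1)
    (hy : |y| ≤ 1) :
    |√(1 - (s * √(1 - x ^ 2)) ^ 2) - √(1 - (s * √(1 - y ^ 2)) ^ 2)| ≤
      |(|x| - |y|)| * (if θ < |s| then 1 else 0) + |x ^ 2 - y ^ 2| / (2 * √(1 - θ ^ 2)) := by
  have hs2 : s ^ 2 ≤ 1 := by rw [← sq_abs]; nlinarith [abs_nonneg s]
  have hx2 : x ^ 2 ≤ 1 := by rw [← sq_abs]; nlinarith [abs_nonneg x]
  have hy2 : y ^ 2 ≤ 1 := by rw [← sq_abs]; nlinarith [abs_nonneg y]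
  have h1 : ∀ z : ℝ, z ^ 2 ≤ 1 →
      1 - (s * √(1 - z ^ 2)) ^ 2 = (1 - s ^ 2) + (|s| * |z|) ^ 2 := by
    intro z hz
    rw [mul_pow, mul_pow, Real.sq_sqrt (by linarith), sq_abs, sq_abs]
    ring
  rw [h1 x hx2, h1 y hy2]
  have hm : 0 < √(1 - θ ^ 2) := Real.sqrt_pos.2 (by nlinarith)
  split_ifs with h
  · have h2 := sqrt_lip (1 - s ^ 2) (|s| * |x|) (|s| * |y|) (by linarith) (by positivity)
      (by positivity)
    rw [← mul_sub, abs_mul, abs_abs] at h2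
    have h3 : |s| * |(|x| - |y|)| ≤ 1 * |(|x| - |y|)| :=
      mul_le_mul_of_nonneg_right hs (abs_nonneg _)
    have h4 : 0 ≤ |x ^ 2 - y ^ 2| / (2 * √(1 - θ ^ 2)) := by positivity
    linarith
  · have h5 : √(1 - θ ^ 2) ^ 2 ≤ 1 - s ^ 2 := by
      rw [Real.sq_sqrt (by nlinarith), ← sq_abs s]
      have h6 : |s| ≤ θ := not_lt.1 h
      nlinarith [abs_nonneg s]
    have h2 := sqrt_lip2 (1 - s ^ 2) (|s| * |x|) (|s| * |y|) _ hm h5
    refine h2.trans ?_
    rw [mul_zero, zero_add]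
    apply div_le_div_of_nonneg_right _ (by positivity)
    rw [mul_pow, mul_pow, ← mul_sub, abs_mul, sq_abs, sq_abs, sq_abs, abs_of_nonneg (sq_nonneg s)]
    have := mul_le_mul_of_nonneg_right hs2 (abs_nonneg (x ^ 2 - y ^ 2))
    linarith

theorem exists_threshold (μ : Measure ℝ) [IsProbabilityMeasure μ] (h : ∀ᵐ s ∂μ, |s| < 1)
    (ε : ℝ) (hε : 0 < ε) : ∃ θ : ℝ, 0 ≤ θ ∧ θ < 1 ∧ μ.real {s | θ < |s|} ≤ ε := by
  have h1 : Tendsto (fun k : ℕ => μ {s : ℝ | 1 - 1 / ((k : ℝ) + 1) < |s|}) atTop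
      (𝓝 (μ (⋂ k : ℕ, {s : ℝ | 1 - 1 / ((k : ℝ) + 1) < |s|}))) := by
    apply tendsto_measure_iInter_atTop
    · intro k
      exact (measurableSet_lt measurable_const continuous_abs.measurable).nullMeasurableSet
    · intro k l hkl s hs
      simp only [mem_ofPred_eq] at hs ⊢
      have : 1 / ((l : ℝ) + 1) ≤ 1 / ((k : ℝ) + 1) := by
        apply one_div_le_one_div_of_le (by positivity)
        have : (k : ℝ) ≤ l := by exact_mod_cast hkl
        linarith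
      linarith
    · exact ⟨0, measure_ne_top _ _⟩
  have h2 : μ (⋂ k : ℕ, {s : ℝ | 1 - 1 / ((k : ℝ) + 1) < |s|}) = 0 := by
    apply measure_mono_null _ (ae_iff.1 h)
    intro s hs
    simp only [mem_iInter, mem_ofPred_eq, not_lt] at hs ⊢
    apply le_of_forall_pos_lt_add
    intro δ hδ
    obtain ⟨k, hk⟩ := exists_nat_one_div_lt hδ
    have := hs k
    linarith
  rw [h2] at h1
  have h3 : ∀ᶠ k : ℕ in atTop, μ {s : ℝ | 1 - 1 / ((k : ℝ) + 1) < |s|} < ENNReal.ofReal ε :=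
    h1.eventually (gt_mem_nhds (by simpa using hε))
  obtain ⟨k, hk⟩ := h3.exists
  refine ⟨1 - 1 / ((k : ℝ) + 1), ?_, ?_, ?_⟩
  · have : 1 / ((k : ℝ) + 1) ≤ 1 := by
      rw [div_le_one (by positivity)]
      linarith [Nat.cast_nonneg (α := ℝ) k]
    linarith
  · have : 0 < 1 / ((k : ℝ) + 1) := by positivity
    linarith
  · rw [Measure.real]
    exact ENNReal.toReal_le_of_le_ofReal hε.le hk.le

theorem DD_cont (κ Φ A B : ℝ) : Continuous fun s : ℝ => DD κ Φ (s * A) (s * B) := by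
  unfold DD; fun_prop

theorem DD_bdd {κ Φ : ℝ} (hκ : 0 ≤ κ) (hΦ : 0 ≤ Φ) (x y : ℝ) (hx : |x| ≤ 1) (hy : |y| ≤ 1) :
    DD κ Φ x y ≤ 1 + κ * (1 + Φ) := by
  unfold DD
  have hx2 : x ^ 2 ≤ 1 := by rw [← sq_abs]; nlinarith [abs_nonneg x]
  have hy2 : y ^ 2 ≤ 1 := by rw [← sq_abs]; nlinarith [abs_nonneg y]
  have h1 : |x ^ 2 - y ^ 2| ≤ 1 := by
    rw [abs_le]; constructor <;> nlinarith [sq_nonneg x, sq_nonneg y]
  have h2 : |(|x| - |y|)| ≤ 1 := by
    rw [abs_le]; constructor <;> linarith [abs_nonneg x, abs_nonneg y]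
  have h3 : |√(1 - x ^ 2) - √(1 - y ^ 2)| ≤ 1 := by
    have := Real.sqrt_nonneg (1 - x ^ 2)
    have := Real.sqrt_nonneg (1 - y ^ 2)
    have : √(1 - x ^ 2) ≤ 1 := Real.sqrt_le_one.2 (by nlinarith [sq_nonneg x])
    have : √(1 - y ^ 2) ≤ 1 := Real.sqrt_le_one.2 (by nlinarith [sq_nonneg y])
    rw [abs_le]; constructor <;> linarith
  have h4 : Φ * |√(1 - x ^ 2) - √(1 - y ^ 2)| ≤ Φ * 1 := mul_le_mul_of_nonneg_left h3 hΦ
  have h5 : κ * (|(|x| - |y|)| + Φ * |√(1 - x ^ 2) - √(1 - y ^ 2)|) ≤ κ * (1 + Φ) :=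
    mul_le_mul_of_nonneg_left (by linarith) hκ
  linarith

theorem linear_estimate (μ : Measure ℝ) [IsProbabilityMeasure μ] (h : ∀ᵐ s ∂μ, |s| < 1)
    (i q : ℝ) (hi : 0 < i) (hq : 0 < q) (hv : ∫ s, s ^ 2 ∂μ < q / i) :
    ∃ κ : ℝ, 0 < κ ∧ κ ≤ 1 ∧ ∀ x y : ℝ, |x| ≤ 1 → |y| ≤ 1 →
      ∫ s, DD κ (i / q) (s * √(1 - x ^ 2)) (s * √(1 - y ^ 2)) ∂μ ≤
        q / i * DD κ (i / q) x y := by
  set Φ : ℝ := i / q with hΦ
  have hΦ0 : 0 < Φ := by positivity
  set v : ℝ := ∫ s, s ^ 2 ∂μ with hvd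
  obtain ⟨θ, hθ0, hθ1, hp⟩ := exists_threshold μ h ((q / i) ^ 2) (by positivity)
  set p : ℝ := μ.real {s | θ < |s|} with hpd
  have hm : 0 < √(1 - θ ^ 2) := Real.sqrt_pos.2 (by nlinarith)
  set C : ℝ := 1 / (2 * √(1 - θ ^ 2)) with hC
  have hC0 : 0 < C := by positivity
  refine ⟨min 1 ((q / i - v) / (Φ * C)), lt_min one_pos (div_pos (by linarith) (by positivity)),
    min_le_left _ _, fun x y hx hy => ?_⟩
  set κ : ℝ := min 1 ((q / i - v) / (Φ * C)) with hκ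
  have hκ0 : 0 < κ := lt_min one_pos (div_pos (by linarith) (by positivity))
  have hκC : κ * (Φ * C) ≤ q / i - v := by
    rw [← le_div_iff₀ (by positivity)]
    exact min_le_right _ _
  have hx2 : x ^ 2 ≤ 1 := by rw [← sq_abs]; nlinarith [abs_nonneg x]
  have hy2 : y ^ 2 ≤ 1 := by rw [← sq_abs]; nlinarith [abs_nonneg y]
  set A : ℝ := √(1 - x ^ 2) with hA
  set B : ℝ := √(1 - y ^ 2) with hB
  have hA2 : A ^ 2 = 1 - x ^ 2 := Real.sq_sqrt (by linarith)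
  have hB2 : B ^ 2 = 1 - y ^ 2 := Real.sq_sqrt (by linarith)
  have hA0 : 0 ≤ A := Real.sqrt_nonneg _
  have hB0 : 0 ≤ B := Real.sqrt_nonneg _
  have hA1 : A ≤ 1 := by nlinarith [sq_nonneg x]
  have hB1 : B ≤ 1 := by nlinarith [sq_nonneg y]
  have hint : Integrable (fun s : ℝ => DD κ Φ (s * A) (s * B)) μ := by
    refine Integrable.of_bound (DD_cont κ Φ A B).aestronglyMeasurable (1 + κ * (1 + Φ)) ?_
    filter_upwards [h] with s hs
    rw [Real.norm_of_nonneg (DD_nonneg hκ0.le hΦ0.le _ _)]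
    apply DD_bdd hκ0.le hΦ0.le
    · rw [abs_mul, abs_of_nonneg hA0]; nlinarith [abs_nonneg s]
    · rw [abs_mul, abs_of_nonneg hB0]; nlinarith [abs_nonneg s]
  have hs2int : Integrable (fun s : ℝ => s ^ 2) μ := by
    refine Integrable.of_bound (by fun_prop) 1 ?_
    filter_upwards [h] with s hs
    rw [Real.norm_of_nonneg (sq_nonneg s), ← sq_abs]
    nlinarith [abs_nonneg s]
  have hind : Integrable (fun s : ℝ => if θ < |s| then (1 : ℝ) else 0) μ := by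
    have : (fun s : ℝ => if θ < |s| then (1 : ℝ) else 0) = indicator {s | θ < |s|} 1 := by
      ext s; simp [indicator_apply]
    rw [this]
    exact (integrable_const 1).indicator
      (measurableSet_lt measurable_const continuous_abs.measurable)
  have hindv : ∫ s : ℝ, (if θ < |s| then (1 : ℝ) else 0) ∂μ = p := by
    have : (fun s : ℝ => if θ < |s| then (1 : ℝ) else 0) = indicator {s | θ < |s|} 1 := by
      ext s; simp [indicator_apply]
    rw [this, integral_indicator_one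
      (measurableSet_lt measurable_const continuous_abs.measurable)]
  have hpt : ∀ᵐ s ∂μ, DD κ Φ (s * A) (s * B) ≤
      s ^ 2 * |x ^ 2 - y ^ 2| + κ * |A - B| +
        κ * Φ * (|(|x| - |y|)| * (if θ < |s| then 1 else 0) + |x ^ 2 - y ^ 2| * C) := by
    filter_upwards [h] with s hs
    have h1 := last_term s x y θ hs.le hθ0 hθ1 hx hy
    rw [← hA, ← hB] at h1
    have h2 : |(s * A) ^ 2 - (s * B) ^ 2| = s ^ 2 * |x ^ 2 - y ^ 2| := by
      rw [mul_pow, mul_pow, ← mul_sub, abs_mul, hA2, hB2, abs_of_nonneg (sq_nonneg s),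
        abs_sub_comm (x ^ 2)]
      congr 2
      ring
    have h3 : |(|s * A| - |s * B|)| ≤ |A - B| := by
      rw [abs_mul, abs_mul, ← mul_sub, abs_mul, abs_abs, abs_of_nonneg hA0, abs_of_nonneg hB0]
      have := mul_le_mul_of_nonneg_right hs.le (abs_nonneg (A - B))
      linarith
    unfold DD
    rw [h2]
    have h4 : |x ^ 2 - y ^ 2| / (2 * √(1 - θ ^ 2)) = |x ^ 2 - y ^ 2| * C := by
      rw [hC]; ring
    rw [h4] at h1
    have h5 := mul_le_mul_of_nonneg_left h3 hκ0.le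
    have h6 := mul_le_mul_of_nonneg_left h1 (mul_nonneg hκ0.le hΦ0.le)
    have h7 : ∀ P Q : ℝ, κ * (P + Φ * Q) = κ * P + κ * Φ * Q := fun P Q => by ring
    rw [h7]
    linarith
  have i1 : Integrable (fun s : ℝ => s ^ 2 * |x ^ 2 - y ^ 2| + κ * |A - B|) μ :=
    (hs2int.mul_const _).add (integrable_const _)
  have i2 : Integrable (fun s : ℝ => κ * Φ *
      (|(|x| - |y|)| * (if θ < |s| then 1 else 0) + |x ^ 2 - y ^ 2| * C)) μ :=
    ((hind.const_mul _).add (integrable_const _)).const_mul _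
  have i3 : Integrable (fun s : ℝ => s ^ 2 * |x ^ 2 - y ^ 2| + κ * |A - B| + κ * Φ *
      (|(|x| - |y|)| * (if θ < |s| then 1 else 0) + |x ^ 2 - y ^ 2| * C)) μ := i1.add i2
  have hbound := integral_mono_ae hint i3 hpt
  refine hbound.trans ?_
  rw [integral_add i1 i2, integral_add (hs2int.mul_const _) (integrable_const _),
    integral_mul_const, integral_const, integral_const_mul,
    integral_add (hind.const_mul _) (integrable_const _),
    integral_const_mul, hindv, integral_const]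
  simp only [probReal_univ, one_smul]
  rw [← hvd]
  unfold DD
  rw [← hA, ← hB]
  have e1 : q / i * Φ = 1 := by rw [hΦ]; field_simp
  have e2 : Φ * p ≤ q / i := by
    have : Φ * p ≤ Φ * (q / i) ^ 2 := mul_le_mul_of_nonneg_left hp hΦ0.le
    have e3 : Φ * (q / i) ^ 2 = q / i := by rw [hΦ]; field_simp
    linarith
  have n1 := abs_nonneg (x ^ 2 - y ^ 2)
  have n2 := abs_nonneg (|x| - |y|)
  have n3 := abs_nonneg (A - B)
  have t1 := mul_le_mul_of_nonneg_right hκC n1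
  have t2 := mul_le_mul_of_nonneg_left (mul_le_mul_of_nonneg_right e2 n2) hκ0.le
  have t3 : q / i * (κ * (Φ * |A - B|)) = κ * |A - B| := by
    calc q / i * (κ * (Φ * |A - B|)) = (q / i * Φ) * (κ * |A - B|) := by ring
      _ = _ := by rw [e1, one_mul]
  calc v * |x ^ 2 - y ^ 2| + κ * |A - B| +
        κ * Φ * (|(|x| - |y|)| * p + |x ^ 2 - y ^ 2| * C)
      = v * |x ^ 2 - y ^ 2| + κ * |A - B| + κ * (Φ * p * |(|x| - |y|)|) +
          κ * (Φ * C) * |x ^ 2 - y ^ 2| := by ring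
    _ ≤ v * |x ^ 2 - y ^ 2| + κ * |A - B| + κ * (q / i * |(|x| - |y|)|) +
          (q / i - v) * |x ^ 2 - y ^ 2| := by linarith
    _ = q / i * |x ^ 2 - y ^ 2| + q / i * (κ * |(|x| - |y|)|) + κ * |A - B| := by ring
    _ = q / i * (|x ^ 2 - y ^ 2| + κ * (|(|x| - |y|)| + Φ * |A - B|)) := by
        rw [← t3]; ring

end Pool.Agent.J6H70.IB
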