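import Pool.Agent.J6H70.IB.Geo

/-! The radial function of the translated body, as a root. -/

set_option autoImplicit false

namespace Pool.Agent.J6H70.IB

open MeasureTheory Set Filter Topology

/-- constants -/
structure Cst (κ Φ a c : ℝ) : Prop where
  κ0 : 0 < κ
  Φ0 : 0 < Φ
  a0 : 0 < a
  c0 : 0 ≤ c
  c1 : c ≤ 1 / 100
  ha : a * (1 + κ * (1 + Φ)) ≤ 1 / 10
  hs : 0 < 1 - 4 * c - a * (5 * (2 + κ + κ * Φ))

/-- lower bound of the slope -/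
def slope (κ Φ a c : ℝ) : ℝ := 1 - 4 * c - a * (5 * (2 + κ + κ * Φ))

/-- the profile functions -/
structure Good (κ Φ a : ℝ) (F : ℝ → ℝ) : Prop where
  cont : Continuous F
  lip : ∀ x y, |x| ≤ 1 → |y| ≤ 1 → |F x - F y| ≤ a * DD κ Φ x y
  one : F 1 = 1

theorem Good.near {κ Φ a c : ℝ} (hC : Cst κ Φ a c) {F : ℝ → ℝ} (hF : Good κ Φ a F) (x : ℝ)
    (hx : |x| ≤ 1) : |F x - 1| ≤ a * (1 + κ * (1 + Φ)) := by
  have h := hF.lip x 1 hx (by simp)
  rw [hF.one] at h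
  exact h.trans (mul_le_mul_of_nonneg_left (DD_bdd hC.κ0.le hC.Φ0.le x 1 hx (by simp)) hC.a0.le)

/-- the function whose root is the radial function of the translate -/
noncomputable def Gf (F : ℝ → ℝ) (c τ t : ℝ) : ℝ := Nn c τ t - F (Yy c τ t)

theorem Gf_mono {κ Φ a c : ℝ} (hC : Cst κ Φ a c) {F : ℝ → ℝ} (hF : Good κ Φ a F) (τ t t' : ℝ)
    (hτ : |τ| ≤ 1) (ht : 1 / 2 ≤ t) (htt : t ≤ t') :
    slope κ Φ a c * (t' - t) ≤ Gf F c τ t' - Gf F c τ t := by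
  have h1 := Nn_slope c τ t t' hC.c0 hC.c1 hτ ht htt
  have h2 := hF.lip (Yy c τ t') (Yy c τ t) (Yy_abs c τ t' hτ) (Yy_abs c τ t hτ)
  have h3 := DD_t κ Φ c τ t' t hC.κ0.le hC.Φ0.le hC.c0 hC.c1 hτ (by linarith) ht
  rw [abs_of_nonneg (show 0 ≤ t' - t by linarith)] at h3
  have h4 := mul_le_mul_of_nonneg_left h3 hC.a0.le
  have h5 := (abs_le.1 (h2.trans h4)).2
  unfold Gf slope
  linarith

theorem Gf_contOn_t {κ Φ a c : ℝ} (hC : Cst κ Φ a c) {F : ℝ → ℝ} (hF : Good κ Φ a F) (τ : ℝ)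
    (hτ : |τ| ≤ 1) : ContinuousOn (fun t => Gf F c τ t) (Icc (1 / 2) 2) := by
  unfold Gf Yy
  refine (Nn_cont c τ).continuousOn.sub (hF.cont.comp_continuousOn ?_)
  refine ContinuousOn.div (by fun_prop) (Nn_cont c τ).continuousOn fun t ht => ?_
  have := Nn_ge c τ t hC.c0 (by linarith [ht.1]) hτ
  have := hC.c1
  have := ht.1
  intro h
  linarith

theorem Gf_half {κ Φ a c : ℝ} (hC : Cst κ Φ a c) {F : ℝ → ℝ} (hF : Good κ Φ a F) (τ t : ℝ)
    (hτ : |τ| ≤ 1) (ht0 : 0 ≤ t) (ht : t ≤ 1 / 2) : Gf F c τ t < 0 := by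
  have h1 := Nn_le c τ t hC.c0 ht0 hτ
  have h2 := abs_le.1 (hF.near hC (Yy c τ t) (Yy_abs c τ t hτ))
  have := hC.ha
  have := hC.c1
  unfold Gf
  linarith [h2.1]

theorem Gf_two {κ Φ a c : ℝ} (hC : Cst κ Φ a c) {F : ℝ → ℝ} (hF : Good κ Φ a F) (τ t : ℝ)
    (hτ : |τ| ≤ 1) (ht : 2 ≤ t) : 0 < Gf F c τ t := by
  have h1 := Nn_ge c τ t hC.c0 (by linarith) hτ
  have h2 := abs_le.1 (hF.near hC (Yy c τ t) (Yy_abs c τ t hτ))
  have := hC.ha
  have := hC.c1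
  unfold Gf
  linarith [h2.2]

theorem exists_root {κ Φ a c : ℝ} (hC : Cst κ Φ a c) {F : ℝ → ℝ} (hF : Good κ Φ a F) (τ : ℝ)
    (hτ : |τ| ≤ 1) : ∃ t ∈ Icc (1 / 2 : ℝ) 2, Gf F c τ t = 0 := by
  have h := intermediate_value_Icc (by norm_num : (1 / 2 : ℝ) ≤ 2) (Gf_contOn_t hC hF τ hτ)
  have h0 : (0 : ℝ) ∈ Icc (Gf F c τ (1 / 2)) (Gf F c τ 2) :=
    ⟨(Gf_half hC hF τ (1 / 2) hτ (by norm_num) le_rfl).le, (Gf_two hC hF τ 2 hτ le_rfl).le⟩
  obtain ⟨t, ht, h1⟩ := h h0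
  exact ⟨t, ht, h1⟩

open Classical in
/-- the radial function of the translate, as a function of the latitude -/
noncomputable def root (F : ℝ → ℝ) (c τ : ℝ) : ℝ :=
  if h : ∃ t ∈ Icc (1 / 2 : ℝ) 2, Gf F c τ t = 0 then h.choose else 1

theorem root_spec {κ Φ a c : ℝ} (hC : Cst κ Φ a c) {F : ℝ → ℝ} (hF : Good κ Φ a F) (τ : ℝ)
    (hτ : |τ| ≤ 1) : root F c τ ∈ Icc (1 / 2 : ℝ) 2 ∧ Gf F c τ (root F c τ) = 0 := by
  have h := exists_root hC hF τ hτ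
  unfold root
  rw [dif_pos h]
  exact h.choose_spec

theorem root_key {κ Φ a c : ℝ} (hC : Cst κ Φ a c) {F : ℝ → ℝ} (hF : Good κ Φ a F) (τ t : ℝ)
    (hτ : |τ| ≤ 1) (ht : 1 / 2 ≤ t) :
    slope κ Φ a c * |root F c τ - t| ≤ |Gf F c τ t| := by
  obtain ⟨h1, h2⟩ := root_spec hC hF τ hτ
  rcases le_total t (root F c τ) with h | h
  · have h3 := Gf_mono hC hF τ t (root F c τ) hτ ht h
    rw [h2] at h3
    rw [abs_of_nonneg (sub_nonneg.2 h)]
    exact h3.trans ((by linarith : (0 : ℝ) - Gf F c τ t ≤ -Gf F c τ t).trans (neg_le_abs _))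
  · have h3 := Gf_mono hC hF τ (root F c τ) t hτ h1.1 h
    rw [h2] at h3
    rw [abs_of_nonpos (sub_nonpos.2 h)]
    exact (by linarith : slope κ Φ a c * -(root F c τ - t) ≤ Gf F c τ t).trans (le_abs_self _)

theorem slope_pos {κ Φ a c : ℝ} (hC : Cst κ Φ a c) : 0 < slope κ Φ a c := hC.hs

theorem root_iff {κ Φ a c : ℝ} (hC : Cst κ Φ a c) {F : ℝ → ℝ} (hF : Good κ Φ a F) (τ t : ℝ)
    (hτ : |τ| ≤ 1) (ht0 : 0 ≤ t) : Gf F c τ t ≤ 0 ↔ t ≤ root F c τ := by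
  obtain ⟨h1, h2⟩ := root_spec hC hF τ hτ
  have hs := slope_pos hC
  rcases le_total t (1 / 2) with h | h
  · exact ⟨fun _ => h.trans h1.1, fun _ => (Gf_half hC hF τ t hτ ht0 h).le⟩
  · constructor
    · intro h3
      by_contra h4
      have h4' : root F c τ < t := not_le.1 h4
      have h5 := Gf_mono hC hF τ (root F c τ) t hτ h1.1 h4'.le
      rw [h2] at h5
      have : 0 < slope κ Φ a c * (t - root F c τ) := mul_pos hs (by linarith)
      linarith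
    · intro h3
      have h5 := Gf_mono hC hF τ t (root F c τ) hτ h h3
      rw [h2] at h5
      have : 0 ≤ slope κ Φ a c * (root F c τ - t) := mul_nonneg hs.le (by linarith)
      linarith

theorem root_near {κ Φ a c : ℝ} (hC : Cst κ Φ a c) {F : ℝ → ℝ} (hF : Good κ Φ a F) (τ : ℝ)
    (hτ : |τ| ≤ 1) : |root F c τ - 1| ≤ a * (1 + κ * (1 + Φ)) + c := by
  obtain ⟨h1, h2⟩ := root_spec hC hF τ hτ
  have h3 := Nn_le c τ (root F c τ) hC.c0 (by linarith [h1.1]) hτ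
  have h4 := Nn_ge c τ (root F c τ) hC.c0 (by linarith [h1.1]) hτ
  have h5 := abs_le.1 (hF.near hC (Yy c τ (root F c τ)) (Yy_abs c τ _ hτ))
  unfold Gf at h2
  rw [abs_le]
  constructor <;> linarith [h5.1, h5.2]

theorem root_diff {κ Φ a c : ℝ} (hC : Cst κ Φ a c) {F : ℝ → ℝ} (hF : Good κ Φ a F) (τ τ' : ℝ)
    (hτ : |τ| ≤ 1) (hτ' : |τ'| ≤ 1) (hs : 0 ≤ τ * τ') :
    slope κ Φ a c * |root F c τ - root F c τ'| ≤
      2 * c * |τ - τ'| + a * ((1 + c * (11 + 7 / κ + 5 * Φ)) * DD κ Φ τ τ') := by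
  obtain ⟨h1, h2⟩ := root_spec hC hF τ' hτ'
  refine (root_key hC hF τ (root F c τ') hτ h1.1).trans ?_
  have h3 : Gf F c τ (root F c τ') = (Nn c τ (root F c τ') - Nn c τ' (root F c τ')) -
      (F (Yy c τ (root F c τ')) - F (Yy c τ' (root F c τ'))) := by
    have : Gf F c τ (root F c τ') = Gf F c τ (root F c τ') - Gf F c τ' (root F c τ') := by
      rw [h2, sub_zero]
    rw [this]
    unfold Gf
    ring
  rw [h3]
  refine (abs_sub _ _).trans (add_le_add (Nn_tau c τ τ' _ hC.c0 hC.c1 hτ hτ' h1.1) ?_)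
  refine (hF.lip _ _ (Yy_abs c τ _ hτ) (Yy_abs c τ' _ hτ')).trans ?_
  exact mul_le_mul_of_nonneg_left
    (DD_tau κ Φ c τ τ' _ hC.κ0 hC.Φ0.le hC.c0 hC.c1 hτ hτ' hs h1.1) hC.a0.le

theorem root_F {κ Φ a c : ℝ} (hC : Cst κ Φ a c) {F F' : ℝ → ℝ} (hF : Good κ Φ a F)
    (hF' : Good κ Φ a F') (M : ℝ) (hM : ∀ x, |x| ≤ 1 → |F x - F' x| ≤ M) (τ : ℝ)
    (hτ : |τ| ≤ 1) : slope κ Φ a c * |root F c τ - root F' c τ| ≤ M := by
  obtain ⟨h1, h2⟩ := root_spec hC hF' τ hτ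
  refine (root_key hC hF τ (root F' c τ) hτ h1.1).trans ?_
  have h3 : Gf F c τ (root F' c τ) =
      -(F (Yy c τ (root F' c τ)) - F' (Yy c τ (root F' c τ))) := by
    have : Gf F c τ (root F' c τ) = Gf F c τ (root F' c τ) - Gf F' c τ (root F' c τ) := by
      rw [h2, sub_zero]
    rw [this]
    unfold Gf
    ring
  rw [h3, abs_neg]
  exact hM _ (Yy_abs c τ _ hτ)

theorem root_contOn {κ Φ a c : ℝ} (hC : Cst κ Φ a c) {F : ℝ → ℝ} (hF : Good κ Φ a F) :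
    ContinuousOn (root F c) (Icc (-1) 1) := by
  intro τ₀ hτ₀
  have hτ₀' : |τ₀| ≤ 1 := abs_le.2 hτ₀
  obtain ⟨h1, h2⟩ := root_spec hC hF τ₀ hτ₀'
  set t := root F c τ₀ with ht
  have hs := slope_pos hC
  have hG : ContinuousWithinAt (fun τ => Gf F c τ t) (Icc (-1) 1) τ₀ := by
    have hN : Continuous fun τ => Nn c τ t := by unfold Nn; fun_prop
    have hN0 : Nn c τ₀ t ≠ 0 := by
      have := Nn_ge c τ₀ t hC.c0 (by linarith [h1.1]) hτ₀'
      have := hC.c1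
      have := h1.1
      intro h
      linarith
    unfold Gf Yy
    refine (hN.continuousWithinAt).sub ?_
    refine ContinuousAt.comp_continuousWithinAt (hF.cont.continuousAt) ?_
    exact ContinuousWithinAt.div (by fun_prop) hN.continuousWithinAt hN0
  have hlim : Tendsto (fun τ => |Gf F c τ t| / slope κ Φ a c) (𝓝[Icc (-1) 1] τ₀) (𝓝 0) := by
    have h3 : Tendsto (fun τ => |Gf F c τ t| / slope κ Φ a c) (𝓝[Icc (-1) 1] τ₀)
        (𝓝 (|Gf F c τ₀ t| / slope κ Φ a c)) := (hG.abs).div_const _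
    rw [h2, abs_zero, zero_div] at h3
    exact h3
  rw [ContinuousWithinAt, ← ht, tendsto_iff_norm_sub_tendsto_zero]
  refine tendsto_of_tendsto_of_tendsto_of_le_of_le' tendsto_const_nhds hlim
    (Eventually.of_forall fun τ => norm_nonneg _) ?_
  filter_upwards [self_mem_nhdsWithin] with τ hτ
  rw [Real.norm_eq_abs, le_div_iff₀ hs, mul_comm]
  exact root_key hC hF τ t (abs_le.2 hτ) h1.1

/-- the radial function, extended to a continuous function on the line -/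
noncomputable def gE (F : ℝ → ℝ) (c : ℝ) : ℝ → ℝ :=
  fun τ => root F c (max (-1) (min 1 τ))

theorem gE_cont {κ Φ a c : ℝ} (hC : Cst κ Φ a c) {F : ℝ → ℝ} (hF : Good κ Φ a F) :
    Continuous (gE F c) := by
  unfold gE
  refine (root_contOn hC hF).comp_continuous (by fun_prop) fun τ => ?_
  exact ⟨le_max_left _ _, max_le (by norm_num) (min_le_left _ _)⟩

theorem gE_eq {F : ℝ → ℝ} {c τ : ℝ} (hτ : |τ| ≤ 1) : gE F c τ = root F c τ := by
  have h := abs_le.1 hτ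
  unfold gE
  rw [min_eq_right h.2, max_eq_right h.1]

theorem gE_near {κ Φ a c : ℝ} (hC : Cst κ Φ a c) {F : ℝ → ℝ} (hF : Good κ Φ a F) (τ : ℝ) :
    |gE F c τ - 1| ≤ a * (1 + κ * (1 + Φ)) + c :=
  root_near hC hF _ (abs_le.2 ⟨le_max_left _ _, max_le (by norm_num) (min_le_left _ _)⟩)

end Pool.Agent.J6H70.IB
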